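import Mathlib

/-!
# Small subalgebras with property (T) and maximal ones without the Grothendieck property

Every subalgebra of `Bor(2^ℕ)` with property (T) which is countable, or of cardinality less than `𝔭`,
is contained in a maximal subalgebra with property (T) which does not have the Grothendieck
property. (The starting result `MaxTNotGrothendieck` gives one maximal subalgebra without the
Grothendieck property.)

The unions of subfamilies of a very fast sequence of small atoms are added to the given algebra `B₁`;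
the levels of these atoms are chosen such that property (T) for any finite part of `B₁` holds at almost
all of them.
-/

set_option autoImplicit false

open MeasureTheory Set Filter Topology

namespace Pool.Agent.Results.MP_54cd88_an.SmallExtensions

/-- The Cantor space `2^ℕ`. -/
abbrev Cantor : Type := ℕ → Bool

/-- The fair coin measure on `{0, 1}`. -/
noncomputable def coin : Measure Bool := (PMF.uniformOfFintype Bool).toMeasure

instance : IsProbabilityMeasure coin := by unfold coin; infer_instance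

/-- The standard product measure on the Cantor space. -/
noncomputable def lam : Measure Cantor := Measure.infinitePi fun _ => coin

instance : IsProbabilityMeasure lam := by unfold lam; infer_instance

/-- `V m i` is the set of all `x` with `x m = i`. -/
def V (m : ℕ) (i : Bool) : Set Cantor := {x | x m = i}

/-- The atom of `𝒜_n` containing `x`: all `y` with `y i = x i` for `i ≤ n`. -/
def atom (n : ℕ) (x : Cantor) : Set Cantor := {y | ∀ i ≤ n, y i = x i}

/-- `phi m A = |λ(A ∩ V_m^0) - λ(A ∩ V_m^1)|`. -/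
noncomputable def phi (m : ℕ) (A : Set Cantor) : ℝ :=
  |lam.real (A ∩ V m false) - lam.real (A ∩ V m true)|

/-- `B` is a subalgebra of `Bor(2^ℕ)` which contains all clopen sets. -/
structure IsAlg (B : Set (Set Cantor)) : Prop where
  borel : ∀ A ∈ B, MeasurableSet[borel Cantor] A
  clopen : ∀ A, IsClopen A → A ∈ B
  compl : ∀ A ∈ B, Aᶜ ∈ B
  union : ∀ A ∈ B, ∀ A' ∈ B, A ∪ A' ∈ B

/-- Property (T): for every finite `F ⊆ B` and `ε > 0` there is `n ≥ 1` such that (T.1) and
(T.2) hold for every atom `U` of `𝒜_n` and every `A ∈ F`. -/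
def PropT (B : Set (Set Cantor)) : Prop :=
  ∀ F : Finset (Set Cantor), (∀ A ∈ F, A ∈ B) → ∀ ε : ℝ, 0 < ε → ∃ n : ℕ, 1 ≤ n ∧
    ∀ A ∈ F, ∀ x : Cantor,
      (min (lam.real (A ∩ atom n x)) (lam.real (atom n x \ A)) ≤ ε * lam.real (atom n x) / n) ∧
      ∀ m : ℕ, n < m → m * phi m (A ∩ atom n x) ≤ ε * lam.real (atom n x)

/-- `B` is a maximal subalgebra of `Bor(2^ℕ)` (containing the clopen sets) with property (T). -/
def IsMaxT (B : Set (Set Cantor)) : Prop := Maximal (fun B => IsAlg B ∧ PropT B) B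

/-- The Stone space of `B`: all Boolean homomorphisms `B → {0, 1}`, as a subspace of the product
space `{0, 1}^B`. -/
def stone (B : Set (Set Cantor)) : Set (B → Bool) :=
  {u | (∀ A A' C : B, (C : Set Cantor) = (A : Set Cantor) ∩ A' → u C = (u A && u A')) ∧
    ∀ A C : B, (C : Set Cantor) = (A : Set Cantor)ᶜ → u C = !u A}

theorem isClosed_stone (B : Set (Set Cantor)) : IsClosed (stone B) := by
  have h : stone B =
      (⋂ (A : B) (A' : B) (C : B) (_ : (C : Set Cantor) = (A : Set Cantor) ∩ A'),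
        {u : B → Bool | u C = (u A && u A')}) ∩
      ⋂ (A : B) (C : B) (_ : (C : Set Cantor) = (A : Set Cantor)ᶜ),
        {u : B → Bool | u C = !u A} := by
    ext u
    simp only [stone, mem_ofPred_eq, mem_inter_iff, mem_iInter]
  rw [h]
  refine IsClosed.inter ?_ ?_
  · refine isClosed_iInter fun A => isClosed_iInter fun A' => isClosed_iInter fun C =>
      isClosed_iInter fun _ => isClosed_eq (continuous_apply C) ?_
    have h1 : Continuous fun p : Bool × Bool => (p.1 && p.2) := continuous_of_discreteTopology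
    have h2 : Continuous fun u : B → Bool => (u A, u A') :=
      (continuous_apply A).prodMk (continuous_apply A')
    exact h1.comp h2
  · refine isClosed_iInter fun A => isClosed_iInter fun C => isClosed_iInter fun _ =>
      isClosed_eq (continuous_apply C) ?_
    have h1 : Continuous fun b : Bool => !b := continuous_of_discreteTopology
    exact h1.comp (continuous_apply A)

instance (B : Set (Set Cantor)) : CompactSpace (stone B) :=
  isCompact_iff_compactSpace.1 (isClosed_stone B).isCompact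

/-- A Banach space is a Grothendieck space if every sequence in the dual which converges weak*
also converges weakly. -/
def IsGrothendieckSpace (X : Type*) [NormedAddCommGroup X] [NormedSpace ℝ X] : Prop :=
  ∀ (f : ℕ → StrongDual ℝ X) (g : StrongDual ℝ X),
    (∀ x : X, Tendsto (fun n => f n x) atTop (𝓝 (g x))) →
    ∀ Φ : StrongDual ℝ (StrongDual ℝ X), Tendsto (fun n => Φ (f n)) atTop (𝓝 (Φ g))

/-- The Boolean algebra `B` has the Grothendieck property: `C(St(B))` is a Grothendieck space. -/
def GrothendieckProperty (B : Set (Set Cantor)) : Prop := IsGrothendieckSpace C(stone B, ℝ)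

/-! ### Preliminaries on the measure -/

theorem measurable_iff (A : Set Cantor) : MeasurableSet[borel Cantor] A ↔ MeasurableSet A := by
  rw [← BorelSpace.measurable_eq (α := Cantor)]

theorem coin_singleton (b : Bool) : coin {b} = 2⁻¹ := by
  unfold coin
  rw [PMF.toMeasure_apply_singleton _ _ (MeasurableSet.singleton _)]
  simp

theorem lam_atom (n : ℕ) (x : Cantor) : lam (atom n x) = 2⁻¹ ^ (n + 1) := by
  classical
  have h1 : atom n x = Set.pi (Finset.range (n + 1) : Finset ℕ) (fun i => {x i}) := by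
    ext y
    simp only [atom, Set.mem_ofPred_eq, Set.mem_pi, Finset.coe_range, Set.mem_Iio,
      Set.mem_singleton_iff]
    exact ⟨fun h i hi => h i (by omega), fun h i hi => h i (by omega)⟩
  rw [h1]
  unfold lam
  rw [Measure.infinitePi_pi _ (fun i _ => MeasurableSet.singleton _)]
  simp only [coin_singleton, Finset.prod_const, Finset.card_range]

theorem lam_real_atom (n : ℕ) (x : Cantor) : lam.real (atom n x) = (2⁻¹ : ℝ) ^ (n + 1) := by
  rw [measureReal_def, lam_atom]
  simp

theorem measurableSet_V (m : ℕ) (b : Bool) : MeasurableSet (V m b) := by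
  have h : V m b = (fun x : Cantor => x m) ⁻¹' {b} := rfl
  rw [h]
  exact (measurable_pi_apply m) (MeasurableSet.singleton b)

/-- Flip the `m`-th coordinate. -/
def flip (m : ℕ) (x : Cantor) : Cantor := Function.update x m (!x m)

theorem measurable_flip (m : ℕ) : Measurable (flip m) := by
  unfold flip
  refine measurable_pi_iff.2 fun i => ?_
  by_cases h : i = m
  · subst h
    simp only [Function.update_self]
    exact (measurable_of_countable (f := fun b : Bool => !b)).comp (measurable_pi_apply i)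
  · simp only [Function.update_of_ne h]
    exact measurable_pi_apply i

theorem coin_not (t : Set Bool) : coin ((fun b => !b) ⁻¹' t) = coin t := by
  classical
  have h : ∀ t : Set Bool, coin t = ∑ b : Bool, if b ∈ t then 2⁻¹ else 0 := by
    intro t
    have h1 : t = ⋃ b ∈ (Finset.univ.filter (· ∈ t)), {b} := by ext; simp
    conv_lhs => rw [h1]
    rw [measure_biUnion_finset (by
      intro a _ b _ hab
      simpa using hab) (fun b _ => MeasurableSet.singleton b)]
    simp only [coin_singleton]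
    rw [Finset.sum_filter]
  rw [h, h]
  simp [add_comm]

theorem map_flip (m : ℕ) : lam.map (flip m) = lam := by
  classical
  unfold lam
  refine Measure.eq_infinitePi (fun _ => coin) fun s t ht => ?_
  rw [Measure.map_apply (measurable_flip m) (MeasurableSet.pi s.countable_toSet fun i _ => ht i)]
  have h1 : flip m ⁻¹' Set.pi s t =
      Set.pi s (fun i => if i = m then (fun b => !b) ⁻¹' t i else t i) := by
    ext x
    simp only [mem_preimage, Set.mem_pi, flip]
    refine forall₂_congr fun i _ => ?_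
    by_cases h : i = m
    · subst h; simp
    · simp [h]
  rw [h1, Measure.infinitePi_pi _ (fun i _ => MeasurableSet.of_discrete)]
  refine Finset.prod_congr rfl fun i _ => ?_
  split_ifs
  · exact coin_not _
  · rfl

/-- `S` only depends on the coordinates `≤ n`. -/
def Dep (n : ℕ) (S : Set Cantor) : Prop := ∀ x y : Cantor, (∀ i ≤ n, y i = x i) → (x ∈ S ↔ y ∈ S)

theorem Dep.measurableSet {n : ℕ} {S : Set Cantor} (h : Dep n S) : MeasurableSet S := by
  let f : Cantor → (Fin (n + 1) → Bool) := fun x i => x i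
  have hf : Measurable f := measurable_pi_iff.2 fun i => measurable_pi_apply _
  have h1 : S = f ⁻¹' (f '' S) := by
    refine subset_antisymm (subset_preimage_image f S) ?_
    rintro x ⟨y, hy, hxy⟩
    refine (h y x fun i hi => ?_).1 hy
    exact (congrFun hxy ⟨i, by omega⟩).symm
  rw [h1]
  exact hf MeasurableSet.of_discrete

theorem Dep.mono {n m : ℕ} (hnm : n ≤ m) {S : Set Cantor} (h : Dep n S) : Dep m S :=
  fun x y hxy => h x y fun i hi => hxy i (hi.trans hnm)

theorem Dep.compl {n : ℕ} {S : Set Cantor} (h : Dep n S) : Dep n Sᶜ :=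
  fun x y hxy => not_congr (h x y hxy)

theorem Dep.union {n : ℕ} {S S' : Set Cantor} (h : Dep n S) (h' : Dep n S') : Dep n (S ∪ S') :=
  fun x y hxy => or_congr (h x y hxy) (h' x y hxy)

theorem Dep.inter {n : ℕ} {S S' : Set Cantor} (h : Dep n S) (h' : Dep n S') : Dep n (S ∩ S') :=
  fun x y hxy => and_congr (h x y hxy) (h' x y hxy)

theorem dep_atom (n : ℕ) (x : Cantor) : Dep n (atom n x) := fun _ _ h =>
  ⟨fun hy i hi => (h i hi).trans (hy i hi), fun hz i hi => (h i hi).symm.trans (hz i hi)⟩

theorem Dep.real_eq {n m : ℕ} (hnm : n < m) {S : Set Cantor} (h : Dep n S) :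
    lam.real (S ∩ V m false) = lam.real (S ∩ V m true) := by
  have h1 : flip m ⁻¹' (S ∩ V m true) = S ∩ V m false := by
    ext x
    have h2 : flip m x ∈ S ↔ x ∈ S := (h x (flip m x) fun i hi => by
      unfold flip
      rw [Function.update_of_ne (by omega)]).symm
    have h4 : flip m x m = !x m := Function.update_self _ _ _
    show (flip m x ∈ S ∧ flip m x m = true) ↔ (x ∈ S ∧ x m = false)
    rw [h2, h4]
    simp
  have h3 : lam (flip m ⁻¹' (S ∩ V m true)) = lam (S ∩ V m true) := by
    conv_rhs => rw [← map_flip m]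
    rw [Measure.map_apply (measurable_flip m) (h.measurableSet.inter (measurableSet_V m true))]
  rw [measureReal_def, measureReal_def, ← h1, h3]

/-- the signed version of `phi` -/
noncomputable def I (m : ℕ) (A : Set Cantor) : ℝ :=
  lam.real (A ∩ V m false) - lam.real (A ∩ V m true)

theorem phi_eq (m : ℕ) (A : Set Cantor) : phi m A = |I m A| := rfl

theorem real_sub_le {C C' T : Set Cantor} (h : C \ T = C' \ T) :
    |lam.real C - lam.real C'| ≤ lam.real T := by
  have key : ∀ C C' : Set Cantor, C \ T = C' \ T → lam.real C ≤ lam.real C' + lam.real T := by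
    intro C C' h
    have h1 : C ⊆ C' ∪ T := by
      intro x hx
      by_cases hT : x ∈ T
      · exact Or.inr hT
      · have : x ∈ C' \ T := h ▸ ⟨hx, hT⟩
        exact Or.inl this.1
    exact (measureReal_mono h1).trans (measureReal_union_le _ _)
  rw [abs_sub_le_iff]
  constructor
  · linarith [key C C' h]
  · linarith [key C' C h.symm]

theorem I_sub_le (m : ℕ) {C C' T : Set Cantor} (h : C \ T = C' \ T) :
    |I m C - I m C'| ≤ 2 * lam.real T := by
  have h1 : ∀ b, |lam.real (C ∩ V m b) - lam.real (C' ∩ V m b)| ≤ lam.real T := by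
    intro b
    apply real_sub_le
    have h2 : ∀ D : Set Cantor, (D ∩ V m b) \ T = (D \ T) ∩ V m b := by
      intro D
      ext x
      simp only [Set.mem_sdiff, mem_inter_iff]
      tauto
    rw [h2, h2, h]
  unfold I
  have h2 := h1 false
  have h3 := h1 true
  rw [abs_le] at *
  constructor <;> linarith [h2.1, h2.2, h3.1, h3.2]

theorem I_union (m : ℕ) {C C' : Set Cantor} (hd : Disjoint C C') (hm : MeasurableSet C') :
    I m (C ∪ C') = I m C + I m C' := by
  have h1 : ∀ b, lam.real ((C ∪ C') ∩ V m b) =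
      lam.real (C ∩ V m b) + lam.real (C' ∩ V m b) := by
    intro b
    rw [union_inter_distrib_right]
    exact measureReal_union (hd.mono inter_subset_left inter_subset_left)
      (hm.inter (measurableSet_V m b))
  unfold I
  rw [h1, h1]
  ring

theorem I_empty (m : ℕ) : I m ∅ = 0 := by simp [I]

/-- Property (T) forces `m * phi m C → 0`. -/
theorem tendsto_phi {B : Set (Set Cantor)} (hT : PropT B) {C : Set Cantor} (hC : C ∈ B)
    (hCm : MeasurableSet C) : Tendsto (fun m : ℕ => (m : ℝ) * I m C) atTop (𝓝 0) := by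
  rw [Metric.tendsto_atTop]
  intro ε hε
  obtain ⟨n, -, hn⟩ := hT {C} (by simpa using hC) (ε / 2) (half_pos hε)
  refine ⟨n + 1, fun m hm => ?_⟩
  rw [Real.dist_eq, sub_zero, abs_mul, abs_of_nonneg (Nat.cast_nonneg m)]
  -- sum over the atoms
  let f : Cantor → (Fin (n + 1) → Bool) := fun x i => x i
  have hf : Measurable f := measurable_pi_iff.2 fun i => measurable_pi_apply _
  let e : (Fin (n + 1) → Bool) → Cantor := fun b i => if h : i < n + 1 then b ⟨i, h⟩ else false
  have hfe : ∀ b, f ⁻¹' {b} = atom n (e b) := by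
    intro b
    ext x
    simp only [mem_preimage, mem_singleton_iff, atom, mem_ofPred_eq]
    constructor
    · intro h i hi
      have : i < n + 1 := by omega
      simp only [e, this, dif_pos]
      rw [← h]
    · intro h
      funext i
      have := h i (by omega)
      simp only [e, i.2, dif_pos] at this
      exact this
  have hsum : ∀ D : Set Cantor, MeasurableSet D → ∑ b, lam.real (D ∩ atom n (e b)) = lam.real D := by
    intro D hD
    have h1 := sum_measureReal_preimage_singleton (μ := lam.restrict D) (Finset.univ)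
      (f := f) (fun b _ => hf (MeasurableSet.singleton b))
    rw [Finset.coe_univ, preimage_univ] at h1
    rw [show (lam.restrict D).real univ = lam.real D by
      rw [measureReal_def, Measure.restrict_apply_univ, measureReal_def]] at h1
    rw [← h1]
    refine Finset.sum_congr rfl fun b _ => ?_
    rw [measureReal_def, measureReal_def, Measure.restrict_apply (hf (MeasurableSet.singleton b)),
      hfe, inter_comm]
  have hI : I m C = ∑ b, I m (C ∩ atom n (e b)) := by
    unfold I
    rw [Finset.sum_sub_distrib, ← hsum _ (hCm.inter (measurableSet_V m false)),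
      ← hsum _ (hCm.inter (measurableSet_V m true))]
    congr 1 <;> refine Finset.sum_congr rfl fun b _ => ?_ <;> rw [inter_right_comm]
  have h1 : (m : ℝ) * |I m C| ≤ ε / 2 := by
    calc (m : ℝ) * |I m C| ≤ m * ∑ b, |I m (C ∩ atom n (e b))| := by
          rw [hI]
          exact mul_le_mul_of_nonneg_left (Finset.abs_sum_le_sum_abs _ _) (Nat.cast_nonneg m)
      _ = ∑ b, m * phi m (C ∩ atom n (e b)) := by
          rw [Finset.mul_sum]
          rfl
      _ ≤ ∑ b, ε / 2 * lam.real (atom n (e b)) :=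
          Finset.sum_le_sum fun b _ => (hn C (Finset.mem_singleton_self C) (e b)).2 m (by omega)
      _ = ε / 2 := by
          rw [← Finset.mul_sum]
          have := hsum univ MeasurableSet.univ
          simp only [univ_inter] at this
          rw [this]
          simp
  linarith

/-! ### The small atoms -/

/-- The levels: a fast growing sequence of natural numbers. -/
class Lv where
  lev : ℕ → ℕ
  pos : 1 ≤ lev 0
  succ : ∀ k, 4 * lev k ≤ lev (k + 1)

/-- The levels of the basic example. -/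
@[reducible] def basicLv : Lv where
  lev := fun k => 4 ^ (k + 1)
  pos := by norm_num
  succ := fun k => by
    rw [pow_succ 4 (k + 1)]
    omega

variable [Lv]

/-- The levels. -/
def ell (k : ℕ) : ℕ := Lv.lev k

theorem ell_succ (k : ℕ) : 4 * ell k ≤ ell (k + 1) := Lv.succ k

theorem ell_pos (k : ℕ) : 1 ≤ ell k := by
  induction k with
  | zero => exact Lv.pos
  | succ k ih =>
    have := ell_succ k
    omega

theorem ell_strictMono : StrictMono ell := by
  refine strictMono_nat_of_lt_succ fun k => ?_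
  have h := ell_succ k
  have := ell_pos k
  omega

theorem lt_ell (k : ℕ) : k < ell k := by
  induction k with
  | zero => exact ell_pos 0
  | succ k ih =>
    have := ell_succ k
    omega

theorem ell_add (k j : ℕ) : ell k + j ≤ ell (k + j) := by
  induction j with
  | zero => simp
  | succ j ih =>
    have := ell_strictMono (Nat.lt_succ_self (k + j))
    have h2 : k + (j + 1) = (k + j) + 1 := by ring
    rw [h2]
    have h3 : ell (k + j) < ell ((k + j) + 1) := this
    omega

/-- The point with exactly one `1`, in position `k`. -/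
def e (k : ℕ) : Cantor := fun i => decide (i = k)

/-- The small atoms. -/
def U (k : ℕ) : Set Cantor := atom (ell k) (e k)

theorem disjoint_U {j k : ℕ} (h : j ≠ k) : Disjoint (U j) (U k) := by
  have key : ∀ j k : ℕ, j < k → Disjoint (U j) (U k) := by
    intro j k hjk
    rw [Set.disjoint_left]
    intro x hx hx'
    have h1 := hx j (lt_ell j).le
    have h2 := hx' j (hjk.le.trans (lt_ell k).le)
    rw [h1] at h2
    simp only [e, decide_true] at h2
    have : decide (j = k) = false := by simpa using hjk.ne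
    rw [this] at h2
    exact absurd h2 (by decide)
  rcases lt_or_gt_of_ne h with h | h
  · exact key _ _ h
  · exact (key _ _ h).symm

theorem dep_U (k : ℕ) : Dep (ell k) (U k) := dep_atom _ _

theorem lam_U (k : ℕ) : lam (U k) = 2⁻¹ ^ (ell k + 1) := lam_atom _ _

theorem lam_real_U (k : ℕ) : lam.real (U k) = (2⁻¹ : ℝ) ^ (ell k + 1) := lam_real_atom _ _

/-- The union of the small atoms with index in `s`. -/
def AS (s : Set ℕ) : Set Cantor := ⋃ i ∈ s, U i

theorem measurableSet_AS (s : Set ℕ) : MeasurableSet (AS s) :=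
  MeasurableSet.biUnion s.to_countable fun i _ => (dep_U i).measurableSet

/-- The tails. -/
def T (k : ℕ) : Set Cantor := AS (Ioi k)

theorem lam_T (k : ℕ) : lam.real (T k) ≤ (2⁻¹ : ℝ) ^ (ell (k + 1)) := by
  have h1 : lam (T k) ≤ 2⁻¹ ^ (ell (k + 1)) := by
    have h2 : T k ⊆ ⋃ j : ℕ, U (k + 1 + j) := by
      intro x hx
      obtain ⟨i, hi, hx⟩ := mem_iUnion₂.1 hx
      have hi' : k < i := hi
      refine mem_iUnion.2 ⟨i - (k + 1), ?_⟩
      rwa [show k + 1 + (i - (k + 1)) = i by omega]
    refine (measure_mono h2).trans ((measure_iUnion_le _).trans ?_)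
    have h3 : ∀ j, lam (U (k + 1 + j)) ≤ 2⁻¹ ^ (ell (k + 1) + 1) * 2⁻¹ ^ j := by
      intro j
      rw [lam_U, ← pow_add]
      apply pow_le_pow_right_of_le_one' (by simp)
      have := ell_add (k + 1) j
      omega
    refine (ENNReal.tsum_le_tsum h3).trans ?_
    rw [ENNReal.tsum_mul_left, ENNReal.tsum_geometric, pow_succ, mul_assoc]
    have : (2⁻¹ : ENNReal) * (1 - 2⁻¹)⁻¹ = 1 := by
      rw [ENNReal.one_sub_inv_two, inv_inv]
      exact ENNReal.inv_mul_cancel (by simp) (by simp)
    rw [this, mul_one]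
  rw [measureReal_def]
  calc (lam (T k)).toReal ≤ ((2⁻¹ : ENNReal) ^ (ell (k + 1))).toReal :=
        ENNReal.toReal_mono (by simp) h1
    _ = _ := by simp

theorem AS_diff (s : Set ℕ) (k : ℕ) : AS s \ T k = AS (s ∩ Iic k) \ T k := by
  ext x
  simp only [AS, T, Set.mem_sdiff, mem_iUnion, exists_prop, mem_Ioi, mem_inter_iff, mem_Iic, not_exists,
    not_and]
  constructor
  · rintro ⟨⟨i, hi, hx⟩, h⟩
    refine ⟨⟨i, ⟨hi, ?_⟩, hx⟩, h⟩
    by_contra hc
    exact h i (not_le.1 hc) hx
  · rintro ⟨⟨i, hi, hx⟩, h⟩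
    exact ⟨⟨i, hi.1, hx⟩, h⟩

theorem dep_AS (s : Set ℕ) (k : ℕ) : Dep (ell k) (AS (s ∩ Iic k)) := by
  intro x y hxy
  simp only [AS, mem_iUnion, exists_prop]
  refine exists_congr fun i => and_congr_right fun hi => ?_
  exact (dep_U i).mono (ell_strictMono.monotone hi.2) x y hxy

/-! ### The algebra `B0` -/

/-- `A` is, outside of the tail `T k`, determined by the coordinates `≤ ell k`. -/
def P (k : ℕ) (A : Set Cantor) : Prop := ∃ D : Set Cantor, Dep (ell k) D ∧ A \ T k = D \ T k

/-- The algebra. -/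
def B0 : Set (Set Cantor) := {A | MeasurableSet[borel Cantor] A ∧ ∃ K, ∀ k ≥ K, P k A}

theorem AS_mem (s : Set ℕ) : AS s ∈ B0 :=
  ⟨(measurable_iff _).2 (measurableSet_AS s), 0, fun k _ => ⟨_, dep_AS s k, AS_diff s k⟩⟩

/-- A clopen set is a union of atoms of `𝒜_n` for all large `n`. -/
theorem clopen_level {A : Set Cantor} (hA : IsClopen A) : ∃ N : ℕ, Dep N A := by
  have key : ∃ N : ℕ, ∀ n ≥ N, ∀ x ∈ (Set.univ : Set Cantor), ∀ y : Cantor,
      (∀ i ≤ n, y i = x i) → (x ∈ A ↔ y ∈ A) := by
    refine (isCompact_univ (X := Cantor)).induction_on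
      (p := fun S => ∃ N : ℕ, ∀ n ≥ N, ∀ x ∈ S, ∀ y : Cantor,
        (∀ i ≤ n, y i = x i) → (x ∈ A ↔ y ∈ A)) ⟨0, fun _ _ x hx => absurd hx (by simp)⟩ ?_ ?_ ?_
    · rintro S T hST ⟨N, hN⟩
      exact ⟨N, fun n hn x hx => hN n hn x (hST hx)⟩
    · rintro S T ⟨N, hN⟩ ⟨M, hM⟩
      refine ⟨max N M, fun n hn x hx => ?_⟩
      rcases hx with hx | hx
      · exact hN n ((le_max_left _ _).trans hn) x hx
      · exact hM n ((le_max_right _ _).trans hn) x hx
    · intro x _
      have hcyl : ∀ C : Set Cantor, IsOpen C → x ∈ C →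
          ∃ n, PiNat.cylinder (E := fun _ => Bool) x n ⊆ C := by
        intro C hC hx
        obtain ⟨v, ⟨z, n, rfl⟩, hv1, hv2⟩ :=
          (PiNat.isTopologicalBasis_cylinders (fun _ => Bool)).mem_nhds_iff.1 (hC.mem_nhds hx)
        refine ⟨n, ?_⟩
        rw [PiNat.mem_cylinder_iff_eq.1 hv1]
        exact hv2
      by_cases hxA : x ∈ A
      · obtain ⟨n, hn⟩ := hcyl A hA.isOpen hxA
        refine ⟨PiNat.cylinder x n, mem_nhdsWithin_of_mem_nhds
          ((PiNat.isOpen_cylinder _ x n).mem_nhds (PiNat.self_mem_cylinder x n)), n, ?_⟩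
        intro k hk z hz y hy
        have h1 : y ∈ PiNat.cylinder (E := fun _ => Bool) x n := fun i hi => by
          rw [hy i (by omega)]
          exact hz i hi
        exact iff_of_true (hn hz) (hn h1)
      · obtain ⟨n, hn⟩ := hcyl Aᶜ hA.compl.isOpen hxA
        refine ⟨PiNat.cylinder x n, mem_nhdsWithin_of_mem_nhds
          ((PiNat.isOpen_cylinder _ x n).mem_nhds (PiNat.self_mem_cylinder x n)), n, ?_⟩
        intro k hk z hz y hy
        have h1 : y ∈ PiNat.cylinder (E := fun _ => Bool) x n := fun i hi => by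
          rw [hy i (by omega)]
          exact hz i hi
        exact iff_of_false (hn hz) (hn h1)
  obtain ⟨N, hN⟩ := key
  exact ⟨N, fun x y => hN N le_rfl x (Set.mem_univ _) y⟩

theorem isAlg_B0 : IsAlg B0 where
  borel := fun _ hA => hA.1
  clopen := by
    intro A hA
    obtain ⟨N, hN⟩ := clopen_level hA
    refine ⟨MeasurableSpace.measurableSet_generateFrom hA.isOpen, N, fun k hk => ⟨A, ?_, rfl⟩⟩
    exact hN.mono (hk.trans (lt_ell k).le)
  compl := by
    rintro A ⟨h1, K, hK⟩
    refine ⟨h1.compl, K, fun k hk => ?_⟩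
    obtain ⟨D, hD, h⟩ := hK k hk
    refine ⟨Dᶜ, hD.compl, ?_⟩
    ext x
    have := Set.ext_iff.1 h x
    simp only [Set.mem_sdiff, mem_compl_iff] at this ⊢
    tauto
  union := by
    rintro A ⟨h1, K, hK⟩ A' ⟨h1', K', hK'⟩
    refine ⟨h1.union h1', max K K', fun k hk => ?_⟩
    obtain ⟨D, hD, h⟩ := hK k ((le_max_left _ _).trans hk)
    obtain ⟨D', hD', h'⟩ := hK' k ((le_max_right _ _).trans hk)
    exact ⟨D ∪ D', hD.union hD', by rw [union_sdiff_distrib, union_sdiff_distrib, h, h']⟩

theorem est_aux {a b : ℕ} (ha : 1 ≤ a) (hab : a ≤ b) :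
    (b : ℝ) * (2⁻¹ : ℝ) ^ b ≤ a * (2⁻¹ : ℝ) ^ a := by
  induction b, hab using Nat.le_induction with
  | base => exact le_rfl
  | succ n hn ih =>
    refine le_trans ?_ ih
    rw [pow_succ]
    push_cast
    have h1 : (1 : ℝ) ≤ n := by exact_mod_cast ha.trans hn
    have h2 : (0 : ℝ) ≤ (2⁻¹ : ℝ) ^ n := by positivity
    nlinarith

/-- The numerical estimate. -/
theorem estimate {ε : ℝ} (hε : 0 < ε) : ∃ K : ℕ, ∀ k ≥ K, ∀ j ≥ k,
    (ell (j + 1) : ℝ) * (2 * (2⁻¹ : ℝ) ^ (ell (j + 1))) ≤ ε * (2⁻¹ : ℝ) ^ (ell k + 1) := by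
  obtain ⟨K, hK⟩ := pow_unbounded_of_one_lt (16 / ε) (one_lt_two (α := ℝ))
  refine ⟨K, fun k hk j hj => ?_⟩
  have h1 : ell k ≤ ell j := ell_strictMono.monotone hj
  have h2 : K ≤ ell j := hk.trans ((lt_ell k).le.trans h1)
  have hest := est_aux (a := 4 * ell j) (b := ell (j + 1)) (by have := ell_pos j; omega) (ell_succ j)
  have hest2 : (ell (j + 1) : ℝ) * (2 * (2⁻¹ : ℝ) ^ (ell (j + 1))) ≤
      4 * (ell j : ℝ) * (2 * (2⁻¹ : ℝ) ^ (4 * ell j)) := by
    push_cast at hest
    linarith
  refine hest2.trans ?_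
  set a := ell j with ha
  have h3 : (16 / ε) < (2 : ℝ) ^ a := hK.trans_le (pow_le_pow_right₀ one_le_two h2)
  have h4 : (a : ℝ) ≤ 2 ^ a := by exact_mod_cast (Nat.lt_two_pow_self (n := a)).le
  have h5 : (1 : ℝ) ≤ 2 ^ a := one_le_pow₀ one_le_two
  have h6 : (2⁻¹ : ℝ) ^ (a + 1) ≤ (2⁻¹ : ℝ) ^ (ell k + 1) :=
    pow_le_pow_of_le_one (by norm_num) (by norm_num) (by omega)
  refine le_trans ?_ (mul_le_mul_of_nonneg_left h6 hε.le)
  have h7 : (2⁻¹ : ℝ) ^ (4 * a) = ((2 : ℝ) ^ a)⁻¹ * ((2 : ℝ) ^ a)⁻¹ * ((2 : ℝ) ^ a)⁻¹ *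
      ((2 : ℝ) ^ a)⁻¹ := by
    rw [inv_pow, pow_mul']
    ring
  have h8 : (2⁻¹ : ℝ) ^ (a + 1) = ((2 : ℝ) ^ a)⁻¹ / 2 := by
    rw [inv_pow, pow_succ]
    field_simp
  rw [h7, h8]
  set t := (2 : ℝ) ^ a with ht
  have ht0 : 0 < t := by positivity
  have h9 : 16 < ε * t := by
    rw [div_lt_iff₀ hε] at h3
    linarith
  have h10 : (a : ℝ) * t⁻¹ ≤ 1 := by
    rw [mul_inv_le_iff₀ ht0]
    linarith
  have h11 : t⁻¹ ≤ 1 := inv_le_one_of_one_le₀ h5
  have h12 : 16 * t⁻¹ ≤ ε := by
    rw [mul_inv_le_iff₀ ht0]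
    exact h9.le
  have h13 : (0 : ℝ) ≤ t⁻¹ := by positivity
  calc 4 * (a : ℝ) * (2 * (t⁻¹ * t⁻¹ * t⁻¹ * t⁻¹))
      = (((a : ℝ) * t⁻¹) * (8 * t⁻¹) * t⁻¹) * t⁻¹ := by ring
    _ ≤ (1 * (ε / 2) * 1) * t⁻¹ := by
        apply mul_le_mul_of_nonneg_right _ h13
        apply mul_le_mul _ h11 h13 (by positivity)
        apply mul_le_mul h10 (by linarith) (by positivity) (by norm_num)
    _ = ε * (t⁻¹ / 2) := by ring

theorem propT_B0 : PropT B0 := by
  classical
  intro F hF ε hε
  have hN : ∃ K : ℕ, ∀ A ∈ F, ∀ k ≥ K, P k A := by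
    induction F using Finset.induction_on with
    | empty => exact ⟨0, fun A hA => absurd hA (by simp)⟩
    | insert A F _ ih =>
      obtain ⟨N, hN⟩ := ih fun A hA => hF A (Finset.mem_insert_of_mem hA)
      obtain ⟨-, M, hM⟩ := hF A (Finset.mem_insert_self _ _)
      refine ⟨max N M, fun C hC n hn => ?_⟩
      rcases Finset.mem_insert.1 hC with rfl | hC
      · exact hM n ((le_max_right _ _).trans hn)
      · exact hN C hC n ((le_max_left _ _).trans hn)
  obtain ⟨K1, hK1⟩ := hN
  obtain ⟨K2, hK2⟩ := estimate hε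
  set k := max K1 K2 with hk
  refine ⟨ell k, ell_pos k, fun A hA x => ⟨?_, ?_⟩⟩
  · obtain ⟨D, hD, h⟩ := hK1 A hA k (le_max_left _ _)
    have h1 : lam.real (T k) ≤ ε * lam.real (atom (ell k) x) / ell k := by
      rw [lam_real_atom, le_div_iff₀ (by exact_mod_cast ell_pos k)]
      have h2 := hK2 k (le_max_right _ _) k le_rfl
      have h3 := lam_T k
      have h4 : (ell k : ℝ) ≤ ell (k + 1) := by
        exact_mod_cast ell_strictMono.monotone (Nat.le_succ k)
      have h5 : (0 : ℝ) ≤ (2⁻¹ : ℝ) ^ (ell (k + 1)) := by positivity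
      calc lam.real (T k) * ell k ≤ (2⁻¹ : ℝ) ^ (ell (k + 1)) * ell (k + 1) :=
            mul_le_mul h3 h4 (by positivity) h5
        _ ≤ (ell (k + 1) : ℝ) * (2 * (2⁻¹ : ℝ) ^ (ell (k + 1))) := by nlinarith
        _ ≤ _ := h2
    by_cases hx : x ∈ D
    · refine (min_le_right _ _).trans (le_trans (measureReal_mono ?_) h1)
      rintro y ⟨hy, hyA⟩
      by_contra hc
      have hyD : y ∈ D := (hD x y hy).1 hx
      have : y ∈ A \ T k := h ▸ ⟨hyD, hc⟩
      exact hyA this.1
    · refine (min_le_left _ _).trans (le_trans (measureReal_mono ?_) h1)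
      rintro y ⟨hyA, hy⟩
      by_contra hc
      have : y ∈ D \ T k := h ▸ ⟨hyA, hc⟩
      exact hx ((hD x y hy).2 this.1)
  · intro m hm
    -- the stage `j` with `ell j < m ≤ ell (j + 1)`
    obtain ⟨j, hj1, hj2, hj3⟩ : ∃ j, k ≤ j ∧ ell j < m ∧ m ≤ ell (j + 1) := by
      have hex : ∃ j, m ≤ ell (j + 1) := ⟨m, ((lt_ell m).le.trans (ell_strictMono.monotone
        (Nat.le_succ m)))⟩
      refine ⟨Nat.find hex, ?_, ?_, Nat.find_spec hex⟩
      · by_contra hc
        have h1 : Nat.find hex + 1 ≤ k := by omega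
        have h2 := ell_strictMono.monotone h1
        have h3 := Nat.find_spec hex
        omega
      · rcases Nat.eq_zero_or_pos (Nat.find hex) with h0 | h0
        · rw [h0]
          exact (ell_strictMono.monotone (Nat.zero_le k)).trans_lt hm
        · have h1 := Nat.find_min hex (m := Nat.find hex - 1) (by omega)
          rw [show Nat.find hex - 1 + 1 = Nat.find hex by omega] at h1
          omega
    obtain ⟨D, hD, h⟩ := hK1 A hA j ((le_max_left _ _).trans hj1)
    have h1 : (A ∩ atom (ell k) x) \ T j = (D ∩ atom (ell k) x) \ T j := by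
      have h2 : ∀ E : Set Cantor, (E ∩ atom (ell k) x) \ T j = (E \ T j) ∩ atom (ell k) x := by
        intro E
        ext y
        simp only [Set.mem_sdiff, mem_inter_iff]
        tauto
      rw [h2, h2, h]
    have h2 := I_sub_le m h1
    have h3 : I m (D ∩ atom (ell k) x) = 0 := by
      unfold I
      rw [(hD.inter ((dep_atom (ell k) x).mono (ell_strictMono.monotone hj1))).real_eq hj2, sub_self]
    rw [h3, sub_zero] at h2
    rw [phi_eq, lam_real_atom]
    have h4 := hK2 k (le_max_right _ _) j hj1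
    have h5 := lam_T j
    have h6 : (m : ℝ) ≤ ell (j + 1) := by exact_mod_cast hj3
    calc (m : ℝ) * |I m (A ∩ atom (ell k) x)|
        ≤ ell (j + 1) * (2 * (2⁻¹ : ℝ) ^ (ell (j + 1))) :=
          mul_le_mul h6 (h2.trans (by linarith)) (abs_nonneg _) (by positivity)
      _ ≤ _ := h4

/-! ### Extensions of a countable algebra -/

/-- The point with the coordinates `b` below `n + 1`, and `false` from there on. -/
def eb (n : ℕ) (b : Fin (n + 1) → Bool) : Cantor :=
  fun i => if h : i < n + 1 then b ⟨i, h⟩ else false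

omit [Lv] in
theorem sum_atoms (n : ℕ) {D : Set Cantor} (hD : MeasurableSet D) :
    ∑ b, lam.real (D ∩ atom n (eb n b)) = lam.real D := by
  let f : Cantor → (Fin (n + 1) → Bool) := fun x i => x i
  have hf : Measurable f := measurable_pi_iff.2 fun i => measurable_pi_apply _
  have hfe : ∀ b, f ⁻¹' {b} = atom n (eb n b) := by
    intro b
    ext x
    simp only [mem_preimage, mem_singleton_iff, atom, mem_ofPred_eq]
    constructor
    · intro h i hi
      have : i < n + 1 := by omega
      simp only [eb, this, dif_pos]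
      rw [← h]
    · intro h
      funext i
      have := h i (by omega)
      simp only [eb, i.2, dif_pos] at this
      exact this
  have h1 := sum_measureReal_preimage_singleton (μ := lam.restrict D) (Finset.univ)
    (f := f) (fun b _ => hf (MeasurableSet.singleton b))
  rw [Finset.coe_univ, preimage_univ] at h1
  rw [show (lam.restrict D).real univ = lam.real D by
    rw [measureReal_def, Measure.restrict_apply_univ, measureReal_def]] at h1
  rw [← h1]
  refine Finset.sum_congr rfl fun b _ => ?_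
  rw [measureReal_def, measureReal_def, Measure.restrict_apply (hf (MeasurableSet.singleton b)),
    hfe, inter_comm]

omit [Lv] in
theorem I_sum (n m : ℕ) {C : Set Cantor} (hC : MeasurableSet C) :
    I m C = ∑ b, I m (C ∩ atom n (eb n b)) := by
  unfold I
  rw [Finset.sum_sub_distrib, ← sum_atoms n (hC.inter (measurableSet_V m false)),
    ← sum_atoms n (hC.inter (measurableSet_V m true))]
  congr 1 <;> refine Finset.sum_congr rfl fun b _ => ?_ <;> rw [inter_right_comm]

/-- The levels `n` at which the two conditions of property (T) hold for `A` and `ε`. -/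
def L (A : Set Cantor) (ε : ℝ) : Set ℕ :=
  {n | 1 ≤ n ∧ ∀ x : Cantor,
    (min (lam.real (A ∩ atom n x)) (lam.real (atom n x \ A)) ≤ ε * lam.real (atom n x) / n) ∧
    ∀ m : ℕ, n < m → m * phi m (A ∩ atom n x) ≤ ε * lam.real (atom n x)}

omit [Lv] in
theorem L_mono {A : Set Cantor} {ε ε' : ℝ} (h : ε ≤ ε') : L A ε ⊆ L A ε' := by
  rintro n ⟨h1, h2⟩
  have hn : (0 : ℝ) < n := by exact_mod_cast h1
  refine ⟨h1, fun x => ?_⟩
  have h3 : ε * lam.real (atom n x) ≤ ε' * lam.real (atom n x) :=
    mul_le_mul_of_nonneg_right h measureReal_nonneg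
  refine ⟨(h2 x).1.trans ?_, fun m hm => ((h2 x).2 m hm).trans h3⟩
  exact div_le_div_of_nonneg_right h3 hn.le

/-- The levels `ell k` are suitable for the algebra `B₁`. -/
structure Suit (B₁ : Set (Set Cantor)) : Prop where
  alg : IsAlg B₁
  ev : ∀ A ∈ B₁, ∀ ε : ℝ, 0 < ε → ∃ K, ∀ k ≥ K, ell k ∈ L A ε

/-- `A` agrees, outside of the tail `T k`, on every atom of the level `ell k` with a member of
`G`. -/
def Q (G : Finset (Set Cantor)) (k : ℕ) (A : Set Cantor) : Prop :=
  ∀ x : Cantor, ∃ C ∈ G, (A ∩ atom (ell k) x) \ T k = (C ∩ atom (ell k) x) \ T k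

/-- The extended algebra. -/
def BE (B₁ : Set (Set Cantor)) : Set (Set Cantor) :=
  {A | MeasurableSet[borel Cantor] A ∧ ∃ G : Finset (Set Cantor), (∀ C ∈ G, C ∈ B₁) ∧
    ∃ K, ∀ k ≥ K, Q G k A}

theorem B0_sub {B₁ : Set (Set Cantor)} (hG : Suit B₁) : B0 ⊆ BE B₁ := by
  classical
  rintro A ⟨h1, K, hK⟩
  refine ⟨h1, {∅, univ}, ?_, K, fun k hk x => ?_⟩
  · intro C hC
    rcases Finset.mem_insert.1 hC with rfl | hC
    · exact hG.alg.clopen _ isClopen_empty
    · rw [Finset.mem_singleton.1 hC]
      exact hG.alg.clopen _ isClopen_univ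
  obtain ⟨D, hD, h⟩ := hK k hk
  have h2 : ∀ E : Set Cantor, (E ∩ atom (ell k) x) \ T k = (E \ T k) ∩ atom (ell k) x := by
    intro E
    ext y
    simp only [Set.mem_sdiff, mem_inter_iff]
    tauto
  by_cases hx : x ∈ D
  · refine ⟨univ, by simp, ?_⟩
    rw [h2, h, ← h2]
    congr 1
    ext y
    simp only [mem_inter_iff, mem_univ, true_and, and_iff_right_iff_imp]
    intro hy
    exact (hD x y hy).1 hx
  · refine ⟨∅, by simp, ?_⟩
    rw [h2, h, ← h2]
    congr 1
    ext y
    simp only [mem_inter_iff, mem_empty_iff_false, false_and, iff_false, not_and]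
    intro hy hy2
    exact hx ((hD x y hy2).2 hy)

theorem isAlg_BE {B₁ : Set (Set Cantor)} (hG : Suit B₁) : IsAlg (BE B₁) where
  borel := fun _ hA => hA.1
  clopen := fun A hA => B0_sub hG (isAlg_B0.clopen A hA)
  compl := by
    classical
    rintro A ⟨h1, G, hGB, K, hK⟩
    refine ⟨h1.compl, G.image compl, ?_, K, fun k hk x => ?_⟩
    · intro C hC
      obtain ⟨D, hD, rfl⟩ := Finset.mem_image.1 hC
      exact hG.alg.compl D (hGB D hD)
    obtain ⟨C, hC, h⟩ := hK k hk x
    refine ⟨Cᶜ, Finset.mem_image_of_mem _ hC, ?_⟩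
    ext y
    have := Set.ext_iff.1 h y
    simp only [Set.mem_sdiff, mem_compl_iff, mem_inter_iff] at this ⊢
    tauto
  union := by
    classical
    rintro A ⟨h1, G, hGB, K, hK⟩ A' ⟨h1', G', hGB', K', hK'⟩
    refine ⟨h1.union h1', (G ×ˢ G').image (fun p => p.1 ∪ p.2), ?_, max K K', fun k hk x => ?_⟩
    · intro C hC
      obtain ⟨p, hp, rfl⟩ := Finset.mem_image.1 hC
      obtain ⟨hp1, hp2⟩ := Finset.mem_product.1 hp
      exact hG.alg.union _ (hGB _ hp1) _ (hGB' _ hp2)
    obtain ⟨C, hC, h⟩ := hK k ((le_max_left _ _).trans hk) x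
    obtain ⟨C', hC', h'⟩ := hK' k ((le_max_right _ _).trans hk) x
    refine ⟨C ∪ C', Finset.mem_image.2 ⟨(C, C'), Finset.mem_product.2 ⟨hC, hC'⟩, rfl⟩, ?_⟩
    rw [union_inter_distrib_right, union_inter_distrib_right, union_sdiff_distrib,
      union_sdiff_distrib, h, h']

theorem sub_BE {B₁ : Set (Set Cantor)} (hG : Suit B₁) : B₁ ⊆ BE B₁ := fun A hA =>
  ⟨hG.alg.borel A hA, {A}, fun C hC => by rwa [Finset.mem_singleton.1 hC], 0,
    fun k _ x => ⟨A, Finset.mem_singleton_self A, rfl⟩⟩

theorem propT_BE {B₁ : Set (Set Cantor)} (hG : Suit B₁) : PropT (BE B₁) := by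
  classical
  intro F hF ε hε
  have hN : ∃ (G : Finset (Set Cantor)) (K : ℕ), (∀ C ∈ G, C ∈ B₁) ∧
      ∀ A ∈ F, ∀ k ≥ K, Q G k A := by
    induction F using Finset.induction_on with
    | empty => exact ⟨∅, 0, fun C hC => absurd hC (by simp), fun A hA => absurd hA (by simp)⟩
    | insert A F _ ih =>
      obtain ⟨G, N, hGB, hN⟩ := ih fun A hA => hF A (Finset.mem_insert_of_mem hA)
      obtain ⟨-, G', hGB', M, hM⟩ := hF A (Finset.mem_insert_self _ _)
      refine ⟨G ∪ G', max N M, fun C hC => ?_, fun C hC n hn x => ?_⟩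
      · rcases Finset.mem_union.1 hC with hC | hC
        · exact hGB C hC
        · exact hGB' C hC
      · rcases Finset.mem_insert.1 hC with rfl | hC
        · obtain ⟨D, hD, h⟩ := hM n ((le_max_right _ _).trans hn) x
          exact ⟨D, Finset.mem_union_right _ hD, h⟩
        · obtain ⟨D, hD, h⟩ := hN C hC n ((le_max_left _ _).trans hn) x
          exact ⟨D, Finset.mem_union_left _ hD, h⟩
  obtain ⟨G, K1, hGB, hK1⟩ := hN
  obtain ⟨K2, hK2⟩ := estimate (half_pos hε)
  have hN3 : ∃ K : ℕ, ∀ C ∈ G, ∀ k ≥ K, ell k ∈ L C (ε / 2) := by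
    clear hK1
    induction G using Finset.induction_on with
    | empty => exact ⟨0, fun A hA => absurd hA (by simp)⟩
    | insert A G _ ih =>
      obtain ⟨N, hN⟩ := ih fun A hA => hGB A (Finset.mem_insert_of_mem hA)
      obtain ⟨M, hM⟩ := hG.ev A (hGB A (Finset.mem_insert_self _ _)) (ε / 2) (half_pos hε)
      refine ⟨max N M, fun C hC n hn => ?_⟩
      rcases Finset.mem_insert.1 hC with rfl | hC
      · exact hM n ((le_max_right _ _).trans hn)
      · exact hN C hC n ((le_max_left _ _).trans hn)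
  obtain ⟨K3, hK3⟩ := hN3
  set k := max (max K1 K2) K3 with hk
  have hkK1 : K1 ≤ k := (le_max_left _ _).trans (le_max_left _ _)
  have hkK2 : K2 ≤ k := (le_max_right _ _).trans (le_max_left _ _)
  have hkK3 : K3 ≤ k := le_max_right _ _
  refine ⟨ell k, ell_pos k, fun A hA x => ⟨?_, ?_⟩⟩
  · obtain ⟨C, hC, h⟩ := hK1 A hA k hkK1 x
    have h1 : lam.real (T k) ≤ ε / 2 * lam.real (atom (ell k) x) / ell k := by
      rw [lam_real_atom, le_div_iff₀ (by exact_mod_cast ell_pos k)]
      have h2 := hK2 k hkK2 k le_rfl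
      have h3 := lam_T k
      have h4 : (ell k : ℝ) ≤ ell (k + 1) := by
        exact_mod_cast ell_strictMono.monotone (Nat.le_succ k)
      have h5 : (0 : ℝ) ≤ (2⁻¹ : ℝ) ^ (ell (k + 1)) := by positivity
      calc lam.real (T k) * ell k ≤ (2⁻¹ : ℝ) ^ (ell (k + 1)) * ell (k + 1) :=
            mul_le_mul h3 h4 (by positivity) h5
        _ ≤ (ell (k + 1) : ℝ) * (2 * (2⁻¹ : ℝ) ^ (ell (k + 1))) := by
            have h6 : (0 : ℝ) ≤ ell (k + 1) := by positivity
            nlinarith
        _ ≤ _ := h2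
    have h2 := real_sub_le h
    have h3 : (atom (ell k) x \ A) \ T k = (atom (ell k) x \ C) \ T k := by
      ext y
      have := Set.ext_iff.1 h y
      simp only [Set.mem_sdiff, mem_inter_iff] at this ⊢
      tauto
    have h4 := real_sub_le h3
    have h5 := ((hK3 C hC k hkK3).2 x).1
    have h9 : ε * lam.real (atom (ell k) x) / ell k =
        ε / 2 * lam.real (atom (ell k) x) / ell k + ε / 2 * lam.real (atom (ell k) x) / ell k := by
      ring
    rw [h9]
    rw [abs_le] at h2 h4
    rcases min_le_iff.1 h5 with h7 | h7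
    · exact (min_le_left _ _).trans (by linarith [h2.2])
    · exact (min_le_right _ _).trans (by linarith [h4.2])
  · intro m hm
    -- the stage `j` with `ell j < m ≤ ell (j + 1)`
    obtain ⟨j, hj1, hj2, hj3⟩ : ∃ j, k ≤ j ∧ ell j < m ∧ m ≤ ell (j + 1) := by
      have hex : ∃ j, m ≤ ell (j + 1) := ⟨m, ((lt_ell m).le.trans (ell_strictMono.monotone
        (Nat.le_succ m)))⟩
      refine ⟨Nat.find hex, ?_, ?_, Nat.find_spec hex⟩
      · by_contra hc
        have h1 : Nat.find hex + 1 ≤ k := by omega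
        have h2 := ell_strictMono.monotone h1
        have h3 := Nat.find_spec hex
        omega
      · rcases Nat.eq_zero_or_pos (Nat.find hex) with h0 | h0
        · rw [h0]
          exact (ell_strictMono.monotone (Nat.zero_le k)).trans_lt hm
        · have h1 := Nat.find_min hex (m := Nat.find hex - 1) (by omega)
          rw [show Nat.find hex - 1 + 1 = Nat.find hex by omega] at h1
          omega
    have hAm : MeasurableSet A := (measurable_iff A).1 (hF A hA).1
    have hTm : MeasurableSet (T j) := measurableSet_AS _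
    have hUm : MeasurableSet (atom (ell k) x) := (dep_atom _ _).measurableSet
    have hmpos : (0 : ℝ) < m := by
      have := ell_pos j
      exact_mod_cast (by omega : 0 < m)
    -- one atom of the level `ell j`
    have hone : ∀ b : Fin (ell j + 1) → Bool,
        m * |I m ((A ∩ atom (ell k) x) ∩ atom (ell j) (eb (ell j) b))| ≤
          m * (2 * lam.real (T j ∩ atom (ell j) (eb (ell j) b))) +
          (ε / 2) * lam.real (atom (ell k) x ∩ atom (ell j) (eb (ell j) b)) := by
      intro b
      set y := eb (ell j) b with hy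
      have hkj : ell k ≤ ell j := ell_strictMono.monotone hj1
      by_cases hyx : y ∈ atom (ell k) x
      · have hsub : atom (ell j) y ⊆ atom (ell k) x := by
          intro z hz i hi
          rw [hz i (hi.trans hkj), hyx i hi]
        obtain ⟨C, hC, h⟩ := hK1 A hA j (hkK1.trans hj1) y
        have h1 : ((A ∩ atom (ell k) x) ∩ atom (ell j) y) \ (T j ∩ atom (ell j) y) =
            (C ∩ atom (ell j) y) \ (T j ∩ atom (ell j) y) := by
          ext z
          have h2 := Set.ext_iff.1 h z
          have h3 := @hsub z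
          simp only [Set.mem_sdiff, mem_inter_iff] at h2 ⊢
          tauto
        have h2 := I_sub_le m h1
        have h3 := ((hK3 C hC j (hkK3.trans hj1)).2 y).2 m hj2
        rw [phi_eq] at h3
        have h4 : atom (ell k) x ∩ atom (ell j) y = atom (ell j) y :=
          inter_eq_right.2 hsub
        rw [h4]
        have h5 := abs_sub_abs_le_abs_sub (I m ((A ∩ atom (ell k) x) ∩ atom (ell j) y))
          (I m (C ∩ atom (ell j) y))
        have h6 : |I m ((A ∩ atom (ell k) x) ∩ atom (ell j) y)| ≤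
            2 * lam.real (T j ∩ atom (ell j) y) + |I m (C ∩ atom (ell j) y)| := by linarith
        calc m * |I m ((A ∩ atom (ell k) x) ∩ atom (ell j) y)|
            ≤ m * (2 * lam.real (T j ∩ atom (ell j) y) + |I m (C ∩ atom (ell j) y)|) :=
              mul_le_mul_of_nonneg_left h6 hmpos.le
          _ = m * (2 * lam.real (T j ∩ atom (ell j) y)) + m * |I m (C ∩ atom (ell j) y)| := by ring
          _ ≤ _ := by linarith
      · have h1 : (A ∩ atom (ell k) x) ∩ atom (ell j) y = ∅ := by
          ext z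
          simp only [mem_inter_iff, mem_empty_iff_false, iff_false, not_and]
          intro hz1 hz2
          apply hyx
          intro i hi
          rw [← hz1.2 i hi, hz2 i (hi.trans hkj)]
        rw [h1, I_empty, abs_zero, mul_zero]
        positivity
    rw [phi_eq, I_sum (ell j) m (hAm.inter hUm)]
    have hS1 := sum_atoms (ell j) hTm
    have hS2 := sum_atoms (ell j) hUm
    have h4 := hK2 k hkK2 j hj1
    have h5 := lam_T j
    have h6 : (m : ℝ) ≤ ell (j + 1) := by exact_mod_cast hj3
    have h8 : (0 : ℝ) ≤ lam.real (atom (ell k) x) := measureReal_nonneg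
    calc (m : ℝ) * |∑ b, I m ((A ∩ atom (ell k) x) ∩ atom (ell j) (eb (ell j) b))|
        ≤ m * ∑ b, |I m ((A ∩ atom (ell k) x) ∩ atom (ell j) (eb (ell j) b))| :=
          mul_le_mul_of_nonneg_left (Finset.abs_sum_le_sum_abs _ _) hmpos.le
      _ = ∑ b, m * |I m ((A ∩ atom (ell k) x) ∩ atom (ell j) (eb (ell j) b))| := by
          rw [Finset.mul_sum]
      _ ≤ ∑ b, (m * (2 * lam.real (T j ∩ atom (ell j) (eb (ell j) b))) +
          (ε / 2) * lam.real (atom (ell k) x ∩ atom (ell j) (eb (ell j) b))) :=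
          Finset.sum_le_sum fun b _ => hone b
      _ = m * (2 * lam.real (T j)) + (ε / 2) * lam.real (atom (ell k) x) := by
          rw [Finset.sum_add_distrib, ← Finset.mul_sum, ← Finset.mul_sum, ← Finset.mul_sum, hS1,
            hS2]
      _ ≤ ell (j + 1) * (2 * (2⁻¹ : ℝ) ^ (ell (j + 1))) + ε / 2 * lam.real (atom (ell k) x) := by
          apply add_le_add
          · apply mul_le_mul h6 _ (by positivity) (by positivity)
            linarith
          · exact le_rfl
      _ ≤ ε * lam.real (atom (ell k) x) := by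
          rw [lam_real_atom]
          linarith

/-! ### The Baire category argument -/

theorem continuous_I (m : ℕ) (A : Set Cantor) :
    Continuous (fun s : Cantor => I m (A ∩ AS {i | s i = true})) := by
  refine continuous_iff_continuousAt.2 fun s => Metric.tendsto_nhds.2 fun ε hε => ?_
  obtain ⟨N, hN⟩ := exists_pow_lt_of_lt_one (half_pos hε) (show (2⁻¹ : ℝ) < 1 by norm_num)
  filter_upwards [(PiNat.isOpen_cylinder (fun _ => Bool) s (N + 1)).mem_nhds
    (PiNat.self_mem_cylinder s (N + 1))] with s' hs'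
  have h1 : {i | s' i = true} ∩ Iic N = {i | s i = true} ∩ Iic N := by
    ext i
    simp only [mem_inter_iff, mem_ofPred_eq, mem_Iic]
    refine and_congr_left fun hi => ?_
    rw [PiNat.mem_cylinder_iff.1 hs' i (by omega)]
  have h2 : (A ∩ AS {i | s' i = true}) \ T N = (A ∩ AS {i | s i = true}) \ T N := by
    have h3 : ∀ C : Set Cantor, (A ∩ C) \ T N = A ∩ (C \ T N) := by
      intro C
      ext x
      simp only [Set.mem_sdiff, mem_inter_iff]
      tauto
    rw [h3, h3, AS_diff _ N, AS_diff {i | s i = true} N, h1]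
  have h4 := I_sub_le m h2
  have h5 := lam_T N
  have h6 : (2⁻¹ : ℝ) ^ (ell (N + 1)) ≤ (2⁻¹ : ℝ) ^ N :=
    pow_le_pow_of_le_one (by norm_num) (by norm_num) ((Nat.le_succ N).trans (lt_ell (N + 1)).le)
  rw [Real.dist_eq]
  linarith

/-- The value of the `k`-th functional at `A`. -/
noncomputable def xk (A : Set Cantor) (k : ℕ) : ℝ :=
  (2 : ℝ) ^ (ell k + 1) * I (2 ^ (ell k + 1)) (A ∩ U k)

theorem IsAlg.inter {B : Set (Set Cantor)} (hB : IsAlg B) {A A' : Set Cantor} (hA : A ∈ B)
    (hA' : A' ∈ B) : A ∩ A' ∈ B := by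
  have := hB.compl _ (hB.union _ (hB.compl _ hA) _ (hB.compl _ hA'))
  rwa [compl_union, compl_compl, compl_compl] at this

theorem tendsto_xk {B : Set (Set Cantor)} (hB : IsAlg B) (hT : PropT B) (h0 : B0 ⊆ B)
    {A : Set Cantor} (hA : A ∈ B) : Tendsto (xk A) atTop (𝓝 0) := by
  have hAm : MeasurableSet A := (measurable_iff A).1 (hB.borel A hA)
  let G : ℕ → Cantor → ℝ := fun k s =>
    ((2 ^ (ell k + 1) : ℕ) : ℝ) * I (2 ^ (ell k + 1)) (A ∩ AS {i | s i = true})
  have hG : ∀ k, Continuous (G k) := fun k => continuous_const.mul (continuous_I _ A)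
  have hlim : ∀ s, Tendsto (fun k => G k s) atTop (𝓝 0) := by
    intro s
    have h1 : A ∩ AS {i | s i = true} ∈ B := hB.inter hA (h0 (AS_mem _))
    have h2 := tendsto_phi hT h1 (hAm.inter (measurableSet_AS _))
    have h3 : Tendsto (fun k : ℕ => 2 ^ (ell k + 1)) atTop atTop := by
      refine tendsto_atTop_mono (fun k => ?_) tendsto_id
      have h4 := lt_ell k
      have h5 := Nat.lt_two_pow_self (n := ell k + 1)
      simp only [id]
      omega
    exact h2.comp h3
  rw [Metric.tendsto_atTop]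
  intro ε hε
  obtain ⟨K, s0, hs0⟩ := nonempty_interior_of_iUnion_of_closed
    (f := fun K : ℕ => {s : Cantor | ∀ k ≥ K, |G k s| ≤ ε / 3}) (by
      intro K
      have : {s : Cantor | ∀ k ≥ K, |G k s| ≤ ε / 3} =
          ⋂ (k : ℕ) (_ : k ≥ K), {s | |G k s| ≤ ε / 3} := by
        ext s
        simp only [mem_ofPred_eq, mem_iInter]
      rw [this]
      exact isClosed_iInter fun k => isClosed_iInter fun _ =>
        isClosed_le ((hG k).abs) continuous_const) (by
      refine eq_univ_of_forall fun s => ?_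
      obtain ⟨K, hK⟩ := (Metric.tendsto_atTop.1 (hlim s)) (ε / 3) (by linarith)
      refine mem_iUnion.2 ⟨K, fun k hk => ?_⟩
      have := hK k hk
      rw [Real.dist_eq, sub_zero] at this
      exact this.le)
  obtain ⟨v, ⟨z, n, rfl⟩, hv1, hv2⟩ :=
    (PiNat.isTopologicalBasis_cylinders (fun _ => Bool)).mem_nhds_iff.1
      (isOpen_interior.mem_nhds hs0)
  rw [← PiNat.mem_cylinder_iff_eq.1 hv1] at hv2
  refine ⟨max K n, fun k hk => ?_⟩
  have hkK : K ≤ k := (le_max_left _ _).trans hk
  have hkn : n ≤ k := (le_max_right _ _).trans hk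
  let s : Cantor := fun i => if i < n then s0 i else false
  let s' : Cantor := fun i => if i < n then s0 i else decide (i = k)
  have hs : s ∈ PiNat.cylinder (E := fun _ => Bool) s0 n := by
    rw [PiNat.mem_cylinder_iff]
    intro i hi
    simp [s, hi]
  have hs' : s' ∈ PiNat.cylinder (E := fun _ => Bool) s0 n := by
    rw [PiNat.mem_cylinder_iff]
    intro i hi
    simp [s', hi]
  have h1 : |G k s| ≤ ε / 3 := interior_subset (hv2 hs) k hkK
  have h2 : |G k s'| ≤ ε / 3 := interior_subset (hv2 hs') k hkK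
  have h3 : A ∩ AS {i | s' i = true} = (A ∩ AS {i | s i = true}) ∪ (A ∩ U k) := by
    rw [← inter_union_distrib_left]
    congr 1
    ext x
    simp only [AS, mem_iUnion, mem_union, mem_ofPred_eq, exists_prop]
    constructor
    · rintro ⟨i, hi, hx⟩
      by_cases hin : i < n
      · left
        refine ⟨i, ?_, hx⟩
        simp only [s', hin, if_true] at hi
        simp only [s, hin, if_true, hi]
      · right
        simp only [s', hin, if_false, decide_eq_true_eq] at hi
        rwa [← hi]
    · rintro (⟨i, hi, hx⟩ | hx)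
      · refine ⟨i, ?_, hx⟩
        by_cases hin : i < n
        · simp only [s, hin, if_true] at hi
          simp only [s', hin, if_true, hi]
        · simp only [s, hin, if_false] at hi
          exact absurd hi (by decide)
      · refine ⟨k, ?_, hx⟩
        have : ¬ k < n := by omega
        simp [s', this]
  have h4 : Disjoint (A ∩ AS {i | s i = true}) (A ∩ U k) := by
    refine Disjoint.mono inter_subset_right inter_subset_right ?_
    unfold AS
    rw [Set.disjoint_iUnion₂_left]
    intro i hi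
    apply disjoint_U
    rintro rfl
    have : ¬ i < n := by omega
    simp [s, this] at hi
  have h5 : G k s' = G k s + xk A k := by
    simp only [G, xk]
    rw [h3, I_union _ h4 (hAm.inter (dep_U k).measurableSet)]
    push_cast
    ring
  rw [Real.dist_eq, sub_zero]
  have h6 : xk A k = G k s' - G k s := by rw [h5]; ring
  rw [h6]
  have h7 := abs_sub (G k s') (G k s)
  linarith

/-! ### The functionals -/

section functionals

variable (B : Set (Set Cantor))

open Classical in
/-- The points of the Cantor space in the Stone space of `B`. -/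
noncomputable def pt (x : Cantor) : stone B :=
  ⟨fun A => decide (x ∈ (A : Set Cantor)), by
    constructor
    · intro A A' C h
      simp only [h, mem_inter_iff, Bool.decide_and]
    · intro A C h
      simp only [h, mem_compl_iff, decide_not]⟩

/-- The characteristic function of the clopen set given by `A`. -/
noncomputable def ind (A : B) : C(stone B, ℝ) :=
  ⟨fun u => if u.1 A = true then 1 else 0, by
    have h1 : Continuous fun b : Bool => if b = true then (1 : ℝ) else 0 :=
      continuous_of_discreteTopology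
    exact h1.comp ((continuous_apply A).comp continuous_subtype_val)⟩

theorem ind_apply (A : B) (u : stone B) : ind B A u = if u.1 A = true then 1 else 0 := rfl

variable {B}

/-- The characteristic functions form a multiplicative monoid. -/
noncomputable def E (hB : IsAlg B) : Submonoid C(stone B, ℝ) where
  carrier := Set.range (ind B)
  mul_mem' := by
    rintro _ _ ⟨A, rfl⟩ ⟨A', rfl⟩
    refine ⟨⟨A ∩ A', hB.inter A.2 A'.2⟩, ?_⟩
    ext u
    have h := u.2.1 A A' ⟨A ∩ A', hB.inter A.2 A'.2⟩ rfl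
    rw [ContinuousMap.mul_apply, ind_apply, ind_apply, ind_apply, h]
    cases u.1 A <;> cases u.1 A' <;> simp
  one_mem' := by
    refine ⟨⟨univ, hB.clopen univ isClopen_univ⟩, ?_⟩
    ext u
    rw [ind_apply, ContinuousMap.one_apply]
    have h1 := u.2.2 ⟨univ, hB.clopen univ isClopen_univ⟩ ⟨∅, hB.clopen ∅ isClopen_empty⟩
      (by simp)
    have h2 := u.2.1 ⟨univ, hB.clopen univ isClopen_univ⟩ ⟨∅, hB.clopen ∅ isClopen_empty⟩
      ⟨∅, hB.clopen ∅ isClopen_empty⟩ (by simp)
    cases h3 : u.1 ⟨univ, hB.clopen univ isClopen_univ⟩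
    · rw [h3] at h1 h2
      rw [h1] at h2
      simp at h2
    · simp

theorem exists_near (hB : IsAlg B) (f : C(stone B, ℝ)) {ε : ℝ} (hε : 0 < ε) :
    ∃ g ∈ Submodule.span ℝ (Set.range (ind B)), ‖f - g‖ < ε := by
  have h1 : (Algebra.adjoin ℝ (E hB : Set C(stone B, ℝ))).topologicalClosure = ⊤ := by
    apply ContinuousMap.subalgebra_topologicalClosure_eq_top_of_separatesPoints
    intro u v huv
    have h2 : ∃ A, u.1 A ≠ v.1 A := by
      by_contra hc
      push Not at hc
      exact huv (Subtype.ext (funext hc))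
    obtain ⟨A, hA⟩ := h2
    refine ⟨ind B A, ⟨ind B A, Algebra.subset_adjoin ⟨A, rfl⟩, rfl⟩, ?_⟩
    rw [ind_apply, ind_apply]
    cases h3 : u.1 A <;> cases h4 : v.1 A <;> simp_all
  have h2 : f ∈ (Algebra.adjoin ℝ (E hB : Set C(stone B, ℝ))).topologicalClosure := by
    rw [h1]
    trivial
  have h3 : f ∈ closure ((Algebra.adjoin ℝ (E hB : Set C(stone B, ℝ))) : Set C(stone B, ℝ)) := h2
  obtain ⟨g, hg, hfg⟩ := Metric.mem_closure_iff.1 h3 ε hε
  refine ⟨g, ?_, by rwa [← dist_eq_norm]⟩
  have h4 : g ∈ Subalgebra.toSubmodule (Algebra.adjoin ℝ (E hB : Set C(stone B, ℝ))) := hg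
  rw [Algebra.adjoin_eq_span, Submonoid.closure_eq] at h4
  exact h4

theorem measurable_ind (hB : IsAlg B) (A : B) : Measurable (fun x => ind B A (pt B x)) := by
  classical
  have h : (fun x => ind B A (pt B x)) = (A : Set Cantor).indicator 1 := by
    funext x
    rw [ind_apply]
    simp only [pt, decide_eq_true_eq, indicator, Pi.one_apply]
  rw [h]
  exact measurable_one.indicator ((measurable_iff _).1 (hB.borel _ A.2))

theorem measurable_comp (hB : IsAlg B) (f : C(stone B, ℝ)) :
    Measurable (fun x => f (pt B x)) := by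
  have h1 : ∀ g ∈ Submodule.span ℝ (Set.range (ind B)), Measurable (fun x => g (pt B x)) := by
    intro g hg
    induction hg using Submodule.span_induction with
    | mem g hg =>
      obtain ⟨A, rfl⟩ := hg
      exact measurable_ind hB A
    | zero => exact measurable_const
    | add g g' _ _ h h' => exact h.add h'
    | smul c g _ h => exact h.const_mul c
  choose g hg hfg using fun n : ℕ => exists_near hB f (Nat.one_div_pos_of_nat (α := ℝ) (n := n))
  refine measurable_of_tendsto_metrizable (fun n => h1 (g n) (hg n)) ?_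
  rw [tendsto_pi_nhds]
  intro x
  rw [Metric.tendsto_atTop]
  intro ε hε
  obtain ⟨N, hN⟩ := exists_nat_one_div_lt hε
  refine ⟨N, fun n hn => ?_⟩
  rw [dist_comm, Real.dist_eq]
  have h2 : ‖(f - g n) (pt B x)‖ ≤ ‖f - g n‖ := ContinuousMap.norm_coe_le_norm _ _
  have h3 : (1 : ℝ) / (n + 1) ≤ 1 / (N + 1) := Nat.one_div_le_one_div hn
  calc |f (pt B x) - g n (pt B x)| ≤ ‖f - g n‖ := h2
    _ < 1 / (n + 1) := hfg n
    _ ≤ 1 / (N + 1) := h3
    _ < ε := hN

/-- The Rademacher functions. -/
noncomputable def sgn (m : ℕ) (x : Cantor) : ℝ := if x m = true then -1 else 1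

theorem measurable_sgn (m : ℕ) : Measurable (sgn m) := by
  unfold sgn
  exact (measurable_of_countable (f := fun b : Bool => if b = true then (-1 : ℝ) else 1)).comp
    (measurable_pi_apply m)

theorem abs_sgn (m : ℕ) (x : Cantor) : |sgn m x| = 1 := by
  unfold sgn
  split_ifs <;> simp

theorem norm_le (m : ℕ) (f : C(stone B, ℝ)) (x : Cantor) : ‖sgn m x * f (pt B x)‖ ≤ ‖f‖ := by
  rw [norm_mul, Real.norm_eq_abs, abs_sgn, one_mul]
  exact ContinuousMap.norm_coe_le_norm _ _

theorem integrable_sgn (hB : IsAlg B) (m : ℕ) (f : C(stone B, ℝ)) (S : Set Cantor) :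
    Integrable (fun x => sgn m x * f (pt B x)) (lam.restrict S) :=
  Integrable.of_bound ((measurable_sgn m).mul (measurable_comp hB f)).aestronglyMeasurable ‖f‖
    (Eventually.of_forall (norm_le m f))

/-- The functionals. -/
noncomputable def nu (hB : IsAlg B) (k : ℕ) : StrongDual ℝ C(stone B, ℝ) :=
  LinearMap.mkContinuous
    { toFun := fun f => (2 : ℝ) ^ (ell k + 1) *
        ∫ x in U k, sgn (2 ^ (ell k + 1)) x * f (pt B x) ∂lam
      map_add' := by
        intro f g
        rw [← mul_add, ← integral_add (integrable_sgn hB _ f _) (integrable_sgn hB _ g _)]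
        simp only [ContinuousMap.add_apply, mul_add]
      map_smul' := by
        intro c f
        simp only [ContinuousMap.smul_apply, smul_eq_mul, RingHom.id_apply]
        have h1 : ∀ x, sgn (2 ^ (ell k + 1)) x * (c * f (pt B x)) =
            c * (sgn (2 ^ (ell k + 1)) x * f (pt B x)) := fun x => by ring
        simp_rw [h1]
        rw [integral_const_mul]
        ring } 1 (by
      intro f
      simp only [LinearMap.coe_mk, AddHom.coe_mk, one_mul]
      rw [norm_mul, Real.norm_of_nonneg (by positivity)]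
      have h1 := norm_setIntegral_le_of_norm_le_const (μ := lam) (s := U k)
        (f := fun x => sgn (2 ^ (ell k + 1)) x * f (pt B x)) (C := ‖f‖)
        (measure_lt_top _ _) (fun x _ => norm_le _ f x)
      rw [lam_real_U] at h1
      calc (2 : ℝ) ^ (ell k + 1) * ‖∫ x in U k, sgn (2 ^ (ell k + 1)) x * f (pt B x) ∂lam‖
          ≤ (2 : ℝ) ^ (ell k + 1) * (‖f‖ * (2⁻¹ : ℝ) ^ (ell k + 1)) :=
            mul_le_mul_of_nonneg_left h1 (by positivity)
        _ = ‖f‖ := by
            rw [inv_pow]
            field_simp)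

theorem nu_apply (hB : IsAlg B) (k : ℕ) (f : C(stone B, ℝ)) :
    nu hB k f = (2 : ℝ) ^ (ell k + 1) *
      ∫ x in U k, sgn (2 ^ (ell k + 1)) x * f (pt B x) ∂lam := rfl

theorem norm_nu (hB : IsAlg B) (k : ℕ) : ‖nu hB k‖ ≤ 1 :=
  LinearMap.mkContinuous_norm_le _ zero_le_one _

theorem nu_ind (hB : IsAlg B) (k : ℕ) (A : B) : nu hB k (ind B A) = xk A k := by
  classical
  have hA : MeasurableSet (A : Set Cantor) := (measurable_iff _).1 (hB.borel _ A.2)
  rw [nu_apply, xk]
  congr 1
  set m := 2 ^ (ell k + 1)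
  have h1 : ∀ x, sgn m x * ind B A (pt B x) =
      ((A : Set Cantor) ∩ V m false).indicator (1 : Cantor → ℝ) x -
        ((A : Set Cantor) ∩ V m true).indicator (1 : Cantor → ℝ) x := by
    intro x
    rw [ind_apply]
    simp only [pt, decide_eq_true_eq, indicator, Pi.one_apply, mem_inter_iff, V, mem_ofPred_eq, sgn]
    by_cases hx : x ∈ (A : Set Cantor) <;> cases h : x m <;> simp [hx]
  simp_rw [h1]
  have hi : ∀ b, Integrable (((A : Set Cantor) ∩ V m b).indicator (1 : Cantor → ℝ))
      (lam.restrict (U k)) := fun b =>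
    (integrable_const (1 : ℝ)).indicator (hA.inter (measurableSet_V m b))
  rw [integral_sub (hi false) (hi true), integral_indicator_one (hA.inter (measurableSet_V m false)),
    integral_indicator_one (hA.inter (measurableSet_V m true)),
    measureReal_restrict_apply (hA.inter (measurableSet_V m false)),
    measureReal_restrict_apply (hA.inter (measurableSet_V m true))]
  unfold I
  rw [inter_right_comm (A : Set Cantor) (V m false), inter_right_comm (A : Set Cantor) (V m true)]

theorem tendsto_nu (hB : IsAlg B) (hT : PropT B) (h0 : B0 ⊆ B) (f : C(stone B, ℝ)) :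
    Tendsto (fun k => nu hB k f) atTop (𝓝 0) := by
  have h1 : ∀ g ∈ Submodule.span ℝ (Set.range (ind B)),
      Tendsto (fun k => nu hB k g) atTop (𝓝 0) := by
    intro g hg
    induction hg using Submodule.span_induction with
    | mem g hg =>
      obtain ⟨A, rfl⟩ := hg
      simp_rw [nu_ind]
      exact tendsto_xk hB hT h0 A.2
    | zero => simp
    | add g g' _ _ h h' => simpa using h.add h'
    | smul c g _ h => simpa using h.const_mul c
  rw [Metric.tendsto_atTop]
  intro ε hε
  obtain ⟨g, hg, hfg⟩ := exists_near hB f (half_pos hε)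
  obtain ⟨N, hN⟩ := (Metric.tendsto_atTop.1 (h1 g hg)) (ε / 2) (half_pos hε)
  refine ⟨N, fun k hk => ?_⟩
  have h2 := hN k hk
  rw [Real.dist_eq, sub_zero] at h2 ⊢
  have h3 : |nu hB k (f - g)| ≤ ‖f - g‖ := by
    have := (nu hB k).le_of_opNorm_le (norm_nu hB k) (f - g)
    simpa using this
  have h4 : nu hB k f = nu hB k (f - g) + nu hB k g := by simp
  rw [h4]
  have h5 := abs_add_le (nu hB k (f - g)) (nu hB k g)
  linarith

theorem dep_mem {n : ℕ} {D : Set Cantor} (hD : Dep n D) : D ∈ B0 :=
  ⟨(measurable_iff _).2 hD.measurableSet, n, fun k hk => ⟨D, hD.mono (hk.trans (lt_ell k).le), rfl⟩⟩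

theorem dep_V (m : ℕ) (b : Bool) : Dep m (V m b) := fun x y h => by
  simp only [V, mem_ofPred_eq, h m le_rfl]

/-- The left halves of the small atoms. -/
def W (k : ℕ) : Set Cantor := U k ∩ V (2 ^ (ell k + 1)) false

theorem W_mem (h0 : B0 ⊆ B) (k : ℕ) : W k ∈ B := by
  refine h0 (dep_mem (n := 2 ^ (ell k + 1)) (Dep.inter ((dep_U k).mono ?_) (dep_V _ _)))
  have := Nat.lt_two_pow_self (n := ell k + 1)
  omega

theorem sum_abs_le (hB : IsAlg B) (h0 : B0 ⊆ B) (μ : StrongDual ℝ C(stone B, ℝ)) (N : ℕ) :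
    ∑ k ∈ Finset.range N, |μ (ind B ⟨W k, W_mem h0 k⟩)| ≤ ‖μ‖ := by
  classical
  let w : ℕ → C(stone B, ℝ) := fun k => ind B ⟨W k, W_mem h0 k⟩
  let g : C(stone B, ℝ) := ∑ k ∈ Finset.range N, (SignType.sign (μ (w k)) : ℝ) • w k
  have h1 : μ g = ∑ k ∈ Finset.range N, |μ (w k)| := by
    simp only [g, map_sum, map_smul, smul_eq_mul]
    exact Finset.sum_congr rfl fun k _ => sign_mul_self _
  have hdis : ∀ (u : stone B) (j k : ℕ), j ≠ k → w j u = 0 ∨ w k u = 0 := by
    intro u j k hjk
    by_contra hc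
    push Not at hc
    have h2 : u.1 ⟨W j, W_mem h0 j⟩ = true := by
      by_contra h
      exact hc.1 (if_neg h)
    have h3 : u.1 ⟨W k, W_mem h0 k⟩ = true := by
      by_contra h
      exact hc.2 (if_neg h)
    have h4 : W j ∩ W k = ∅ := by
      rw [← disjoint_iff_inter_eq_empty]
      exact (disjoint_U hjk).mono inter_subset_left inter_subset_left
    have h5 := u.2.1 ⟨W j, W_mem h0 j⟩ ⟨W k, W_mem h0 k⟩ ⟨∅, hB.clopen ∅ isClopen_empty⟩
      h4.symm
    rw [h2, h3] at h5
    have h6 := u.2.1 ⟨∅, hB.clopen ∅ isClopen_empty⟩ ⟨univ, hB.clopen univ isClopen_univ⟩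
      ⟨∅, hB.clopen ∅ isClopen_empty⟩ (by simp)
    have h7 := u.2.2 ⟨∅, hB.clopen ∅ isClopen_empty⟩ ⟨univ, hB.clopen univ isClopen_univ⟩
      (by simp)
    rw [h5] at h6 h7
    rw [h7] at h6
    simp at h6
  have h2 : ‖g‖ ≤ 1 := by
    rw [ContinuousMap.norm_le _ zero_le_one]
    intro u
    have h3 : g u = ∑ k ∈ Finset.range N, (SignType.sign (μ (w k)) : ℝ) * w k u := by
      simp only [g, ContinuousMap.coe_sum, Finset.sum_apply, ContinuousMap.coe_smul, Pi.smul_apply,
        smul_eq_mul]
    rw [h3]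
    by_cases hex : ∃ k ∈ Finset.range N, w k u ≠ 0
    · obtain ⟨k, hk, hku⟩ := hex
      rw [Finset.sum_eq_single k]
      · rw [norm_mul]
        have h4 : ‖(SignType.sign (μ (w k)) : ℝ)‖ ≤ 1 := by
          rcases SignType.trichotomy (SignType.sign (μ (w k))) with h | h | h <;> simp [h]
        have h5 : ‖w k u‖ ≤ 1 := by
          simp only [w, ind_apply]
          split_ifs <;> simp
        exact mul_le_one₀ h4 (norm_nonneg _) h5
      · intro j _ hjk
        rcases hdis u j k hjk with h | h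
        · rw [h, mul_zero]
        · exact absurd h hku
      · intro h
        exact absurd hk h
    · push Not at hex
      rw [Finset.sum_eq_zero fun k hk => by rw [hex k hk, mul_zero]]
      simp
  calc ∑ k ∈ Finset.range N, |μ (w k)| = μ g := h1.symm
    _ ≤ ‖μ g‖ := le_abs_self _
    _ ≤ ‖μ‖ * ‖g‖ := μ.le_opNorm g
    _ ≤ ‖μ‖ * 1 := by gcongr
    _ = ‖μ‖ := mul_one _

theorem summable_w (hB : IsAlg B) (h0 : B0 ⊆ B) (μ : StrongDual ℝ C(stone B, ℝ)) :
    Summable fun k => |μ (ind B ⟨W k, W_mem h0 k⟩)| :=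
  summable_of_sum_range_le (fun _ => abs_nonneg _) (sum_abs_le hB h0 μ)

/-- The functional on the dual, as a linear map. -/
noncomputable def PhiL (hB : IsAlg B) (h0 : B0 ⊆ B) : StrongDual ℝ C(stone B, ℝ) →ₗ[ℝ] ℝ where
  toFun := fun μ => ∑' k, μ (ind B ⟨W k, W_mem h0 k⟩)
  map_add' := fun μ ν => by
    have h : ∀ k, (μ + ν) (ind B ⟨W k, W_mem h0 k⟩) =
        μ (ind B ⟨W k, W_mem h0 k⟩) + ν (ind B ⟨W k, W_mem h0 k⟩) := fun k => rfl
    simp_rw [h]
    exact (summable_w hB h0 μ).of_abs.tsum_add (summable_w hB h0 ν).of_abs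
  map_smul' := fun c μ => by
    have h : ∀ k, (c • μ) (ind B ⟨W k, W_mem h0 k⟩) = c * μ (ind B ⟨W k, W_mem h0 k⟩) :=
      fun k => rfl
    simp_rw [h]
    exact tsum_mul_left

theorem PhiL_apply (hB : IsAlg B) (h0 : B0 ⊆ B) (μ : StrongDual ℝ C(stone B, ℝ)) :
    PhiL hB h0 μ = ∑' k, μ (ind B ⟨W k, W_mem h0 k⟩) := rfl

theorem PhiL_le (hB : IsAlg B) (h0 : B0 ⊆ B) (μ : StrongDual ℝ C(stone B, ℝ)) :
    ‖PhiL hB h0 μ‖ ≤ 1 * ‖μ‖ := by
  rw [one_mul, PhiL_apply]
  have h1 : Summable fun k => ‖μ (ind B ⟨W k, W_mem h0 k⟩)‖ := summable_w hB h0 μ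
  refine (norm_tsum_le_tsum_norm h1).trans ?_
  exact Real.tsum_le_of_sum_range_le (fun _ => abs_nonneg _) (sum_abs_le hB h0 μ)

/-- A bounded linear functional on a normed space. -/
noncomputable def mkDual {X : Type*} [NormedAddCommGroup X] [NormedSpace ℝ X] (f : X →ₗ[ℝ] ℝ)
    (h : ∀ x, ‖f x‖ ≤ 1 * ‖x‖) : StrongDual ℝ X := f.mkContinuous 1 h

theorem mkDual_apply {X : Type*} [NormedAddCommGroup X] [NormedSpace ℝ X] (f : X →ₗ[ℝ] ℝ)
    (h : ∀ x, ‖f x‖ ≤ 1 * ‖x‖) (x : X) : mkDual f h x = f x := rfl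

/-- The functional on the dual. -/
noncomputable def Phi (hB : IsAlg B) (h0 : B0 ⊆ B) : StrongDual ℝ (StrongDual ℝ C(stone B, ℝ)) :=
  mkDual (X := StrongDual ℝ C(stone B, ℝ)) (PhiL hB h0) (PhiL_le hB h0)

theorem Phi_nu (hB : IsAlg B) (h0 : B0 ⊆ B) (k : ℕ) : Phi hB h0 (nu hB k) = 1 / 2 := by
  have h1 : Phi hB h0 (nu hB k) = ∑' j, nu hB k (ind B ⟨W j, W_mem h0 j⟩) := by
    have h := mkDual_apply (X := StrongDual ℝ C(stone B, ℝ)) (PhiL hB h0) (PhiL_le hB h0)
      (nu hB k)
    rw [PhiL_apply] at h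
    exact h
  rw [h1]
  simp_rw [nu_ind]
  rw [tsum_eq_single k]
  · unfold xk W I
    have h2 : U k ∩ V (2 ^ (ell k + 1)) false ∩ U k ∩ V (2 ^ (ell k + 1)) false =
        U k ∩ V (2 ^ (ell k + 1)) false := by
      ext x
      simp only [mem_inter_iff]
      tauto
    have h3 : U k ∩ V (2 ^ (ell k + 1)) false ∩ U k ∩ V (2 ^ (ell k + 1)) true = ∅ := by
      ext x
      simp only [mem_inter_iff, V, mem_ofPred_eq, mem_empty_iff_false, iff_false, not_and]
      rintro ⟨⟨_, h⟩, _⟩ h'
      rw [h] at h'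
      exact absurd h' (by decide)
    rw [h2, h3, measureReal_empty, sub_zero]
    have h4 : lam.real (U k ∩ V (2 ^ (ell k + 1)) false) = (2⁻¹ : ℝ) ^ (ell k + 1) / 2 := by
      have hlt : ell k < 2 ^ (ell k + 1) := by
        have := Nat.lt_two_pow_self (n := ell k + 1)
        omega
      have h5 := (dep_U k).real_eq hlt
      have h6 : lam.real (U k) = lam.real (U k ∩ V (2 ^ (ell k + 1)) false) +
          lam.real (U k ∩ V (2 ^ (ell k + 1)) true) := by
        rw [← measureReal_union]
        · congr 1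
          ext x
          simp only [V, mem_union, mem_inter_iff, mem_ofPred_eq]
          cases x (2 ^ (ell k + 1)) <;> simp
        · rw [Set.disjoint_left]
          rintro x ⟨_, h⟩ ⟨_, h'⟩
          have h8 : x (2 ^ (ell k + 1)) = false := h
          have h9 : x (2 ^ (ell k + 1)) = true := h'
          rw [h8] at h9
          exact absurd h9 (by decide)
        · exact (dep_U k).measurableSet.inter (measurableSet_V _ _)
      rw [lam_real_U] at h6
      linarith
    rw [h4, inv_pow]
    field_simp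
  · intro j hj
    unfold xk W
    have h2 : U j ∩ V (2 ^ (ell j + 1)) false ∩ U k = ∅ := by
      rw [← disjoint_iff_inter_eq_empty]
      exact (disjoint_U hj).mono inter_subset_left le_rfl
    rw [h2, I_empty, mul_zero]

/-- No algebra with property (T) which contains `B0` has the Grothendieck property. -/
theorem not_grothendieck (hB : IsAlg B) (hT : PropT B) (h0 : B0 ⊆ B) :
    ¬ GrothendieckProperty B := by
  intro h
  have h1 := h (fun k => nu hB k) 0 (fun f => by simpa using tendsto_nu hB hT h0 f) (Phi hB h0)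
  simp_rw [Phi_nu] at h1
  rw [map_zero] at h1
  have := tendsto_nhds_unique h1 tendsto_const_nhds
  norm_num at this

end functionals

/-! ### Zorn's lemma -/

omit [Lv] in
theorem exists_mem_of_chain {c : Set (Set (Set Cantor))} (hc : IsChain (· ⊆ ·) c)
    (hne : c.Nonempty) (F : Finset (Set Cantor)) (hF : ∀ A ∈ F, A ∈ ⋃₀ c) :
    ∃ B ∈ c, ∀ A ∈ F, A ∈ B := by
  classical
  induction F using Finset.induction_on with
  | empty => exact ⟨hne.some, hne.some_mem, fun A hA => absurd hA (by simp)⟩
  | insert A F _ ih =>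
    obtain ⟨B, hB, h⟩ := ih fun A hA => hF A (Finset.mem_insert_of_mem hA)
    obtain ⟨C, hC, h'⟩ := hF A (Finset.mem_insert_self _ _)
    rcases hc.total hB hC with h1 | h1
    · refine ⟨C, hC, fun D hD => ?_⟩
      rcases Finset.mem_insert.1 hD with rfl | hD
      · exact h'
      · exact h1 (h D hD)
    · refine ⟨B, hB, fun D hD => ?_⟩
      rcases Finset.mem_insert.1 hD with rfl | hD
      · exact h1 h'
      · exact h D hD

omit [Lv] in
theorem exists_isMaxT {B' : Set (Set Cantor)} (h1 : IsAlg B') (h2 : PropT B') :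
    ∃ B : Set (Set Cantor), IsMaxT B ∧ B' ⊆ B := by
  classical
  obtain ⟨B, h, hB⟩ := zorn_subset_nonempty {B : Set (Set Cantor) | IsAlg B ∧ PropT B} (by
    intro c hcS hc hne
    refine ⟨⋃₀ c, ⟨⟨?_, ?_, ?_, ?_⟩, ?_⟩, fun s hs => Set.subset_sUnion_of_mem hs⟩
    · rintro A ⟨B, hB, hA⟩
      exact (hcS hB).1.borel A hA
    · intro A hA
      obtain ⟨B, hB⟩ := hne
      exact ⟨B, hB, (hcS hB).1.clopen A hA⟩
    · rintro A ⟨B, hB, hA⟩
      exact ⟨B, hB, (hcS hB).1.compl A hA⟩
    · intro A hA A' hA'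
      obtain ⟨B, hB, h⟩ := exists_mem_of_chain hc hne {A, A'} (by
        intro D hD
        simp only [Finset.mem_insert, Finset.mem_singleton] at hD
        rcases hD with rfl | rfl
        · exact hA
        · exact hA')
      exact ⟨B, hB, (hcS hB).1.union A (h A (by simp)) A' (h A' (by simp))⟩
    · intro F hF ε hε
      obtain ⟨B, hB, h⟩ := exists_mem_of_chain hc hne F hF
      exact (hcS hB).2 F h ε hε) B' ⟨h1, h2⟩
  exact ⟨B, hB, h⟩

/-! ### The levels of a countable algebra -/

omit [Lv] in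
theorem exists_large {B : Set (Set Cantor)} (hB : IsAlg B) (hT : PropT B) (F : Set (Set Cantor))
    (hF : F.Finite) (hFB : F ⊆ B) {ε : ℝ} (hε : 0 < ε) (N : ℕ) :
    ∃ n : ℕ, N ≤ n ∧ 1 ≤ n ∧ ∀ A ∈ F, ∀ x : Cantor,
      (min (lam.real (A ∩ atom n x)) (lam.real (atom n x \ A)) ≤ ε * lam.real (atom n x) / n) ∧
      ∀ m : ℕ, n < m → m * phi m (A ∩ atom n x) ≤ ε * lam.real (atom n x) := by
  classical
  have hV : V N false ∈ B := by
    refine hB.clopen _ ?_
    have h : V N false = (fun x : Cantor => x N) ⁻¹' {false} := rfl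
    rw [h]
    exact (isClopen_discrete {false}).preimage (continuous_apply N)
  obtain ⟨n, hn1, hn⟩ := hT (insert (V N false) hF.toFinset) (by
    intro A hA
    rcases Finset.mem_insert.1 hA with rfl | hA
    · exact hV
    · exact hFB (hF.mem_toFinset.1 hA)) (min ε (1 / 4)) (lt_min hε (by norm_num))
  have hn0 : (1 : ℝ) ≤ n := by exact_mod_cast hn1
  refine ⟨n, ?_, hn1, fun A hA x => ?_⟩
  · by_contra hlt
    have h1 := (hn (V N false) (Finset.mem_insert_self _ _) (fun _ => false)).1
    set D := atom n (fun _ => false) with hD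
    have h2 := (dep_atom n (fun _ => false)).real_eq (m := N) (by omega)
    have hpos : 0 < lam.real D := by
      rw [hD, lam_real_atom]
      positivity
    have h3 : lam.real (V N false ∩ D) = lam.real D / 2 ∧ lam.real (D \ V N false) =
        lam.real D / 2 := by
      have h4 : D \ V N false = D ∩ V N true := by
        ext y
        simp only [V, Set.mem_sdiff, mem_inter_iff, mem_ofPred_eq, Bool.not_eq_false]
      have h5 := measureReal_inter_add_sdiff (μ := lam) (s := D) (measurableSet_V N false)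
      rw [h4] at h5 ⊢
      rw [inter_comm (V N false)]
      constructor <;> linarith
    rw [h3.1, h3.2, min_self] at h1
    have h4 : min ε (1 / 4) * lam.real D / n ≤ 1 / 4 * lam.real D := by
      rw [div_le_iff₀ (by linarith)]
      have h5 : min ε (1 / 4) * lam.real D ≤ 1 / 4 * lam.real D :=
        mul_le_mul_of_nonneg_right (min_le_right _ _) hpos.le
      nlinarith
    linarith
  · obtain ⟨h1, h2⟩ := hn A (Finset.mem_insert_of_mem (hF.mem_toFinset.2 hA)) x
    have h3 : min ε (1 / 4) * lam.real (atom n x) ≤ ε * lam.real (atom n x) :=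
      mul_le_mul_of_nonneg_right (min_le_left _ _) measureReal_nonneg
    refine ⟨h1.trans ?_, fun m hm => (h2 m hm).trans h3⟩
    exact div_le_div_of_nonneg_right h3 (by linarith)

/-- The pseudointersection number `𝔭`: the least size of a family of sets of natural numbers all of
whose finite intersections are infinite and which has no infinite pseudointersection. -/
noncomputable def pNum : Cardinal.{0} :=
  sInf {κ | ∃ 𝒞 : Set (Set ℕ), Cardinal.mk 𝒞 = κ ∧
    (∀ F : Finset (Set ℕ), (∀ c ∈ F, c ∈ 𝒞) → {n : ℕ | ∀ c ∈ F, n ∈ c}.Infinite) ∧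
    ¬ ∃ a : Set ℕ, a.Infinite ∧ ∀ c ∈ 𝒞, (a \ c).Finite}

omit [Lv] in
theorem exists_pseudo {B₁ : Set (Set Cantor)} (hB : IsAlg B₁) (hT : PropT B₁)
    (hc : B₁.Countable ∨ Cardinal.mk B₁ < pNum) :
    ∃ a : Set ℕ, a.Infinite ∧ ∀ A ∈ B₁, ∀ ε : ℝ, 0 < ε → (a \ L A ε).Finite := by
  classical
  by_cases hcount : B₁.Countable
  · obtain ⟨b, hb⟩ := hcount.exists_eq_range ⟨∅, hB.clopen _ isClopen_empty⟩
    have hbB : ∀ i, b i ∈ B₁ := fun i => hb ▸ mem_range_self i
    have hex : ∀ k : ℕ, ∃ n : ℕ, k ≤ n ∧ ∀ i ≤ k, n ∈ L (b i) (1 / ((k : ℝ) + 1)) := by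
      intro k
      obtain ⟨n, h1, h2, h3⟩ := exists_large hB hT (b '' Set.Iic k) ((Set.finite_Iic k).image b)
        (by rintro _ ⟨i, _, rfl⟩; exact hbB i) (ε := 1 / ((k : ℝ) + 1)) (by positivity) k
      exact ⟨n, h1, fun i hi => ⟨h2, fun x => h3 (b i) ⟨i, hi, rfl⟩ x⟩⟩
    choose n hn1 hn2 using hex
    refine ⟨Set.range n, ?_, ?_⟩
    · apply Set.infinite_of_not_bddAbove
      rintro ⟨M, hM⟩
      have h1 := hM ⟨M + 1, rfl⟩
      have h2 := hn1 (M + 1)
      omega
    · intro A hA ε hε
      rw [hb] at hA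
      obtain ⟨i, rfl⟩ := hA
      obtain ⟨K, hK⟩ := exists_nat_gt (1 / ε)
      refine ((Set.finite_lt_nat (max i K)).image n).subset ?_
      rintro _ ⟨⟨k, rfl⟩, hk⟩
      refine ⟨k, ?_, rfl⟩
      by_contra hcon
      simp only [Set.mem_ofPred_eq, not_lt] at hcon
      apply hk
      refine L_mono ?_ (hn2 k i ((le_max_left _ _).trans hcon))
      have h1 : (K : ℝ) ≤ k := by exact_mod_cast (le_max_right _ _).trans hcon
      have h2 : 1 / ε < (k : ℝ) + 1 := by linarith
      rw [div_lt_iff₀ hε] at h2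
      rw [div_le_iff₀ (by positivity)]
      linarith
  · have hlt : Cardinal.mk B₁ < pNum := hc.resolve_left hcount
    let 𝒞 : Set (Set ℕ) := Set.range (fun p : B₁ × ℕ => L p.1.1 (1 / ((p.2 : ℝ) + 1)))
    have hcard : Cardinal.mk 𝒞 ≤ Cardinal.mk B₁ := by
      refine Cardinal.mk_range_le.trans ?_
      rw [Cardinal.mk_prod]
      simp only [Cardinal.lift_id, Cardinal.mk_nat]
      have h1 : Cardinal.aleph0 ≤ Cardinal.mk B₁ := by
        by_contra hcon
        exact hcount (Cardinal.le_aleph0_iff_set_countable.1 (not_le.1 hcon).le)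
      exact (Cardinal.mul_le_max_of_aleph0_le_left h1).trans (by rw [max_eq_left h1])
    have hfip : ∀ F : Finset (Set ℕ), (∀ c ∈ F, c ∈ 𝒞) →
        {n : ℕ | ∀ c ∈ F, n ∈ c}.Infinite := by
      intro F hF
      have hfin : ∃ (E : Finset (Set Cantor)) (ε : ℝ), 0 < ε ∧ (∀ A ∈ E, A ∈ B₁) ∧
          ∀ c ∈ F, ∃ A ∈ E, L A ε ⊆ c := by
        induction F using Finset.induction_on with
        | empty => exact ⟨∅, 1, one_pos, fun A hA => absurd hA (by simp),
            fun A hA => absurd hA (by simp)⟩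
        | insert c F _ ih =>
          obtain ⟨E, ε, h1, h2, h3⟩ := ih fun c hc => hF c (Finset.mem_insert_of_mem hc)
          obtain ⟨⟨A, i⟩, hA⟩ := hF c (Finset.mem_insert_self _ _)
          refine ⟨insert A.1 E, min ε (1 / ((i : ℝ) + 1)), lt_min h1 (by positivity), ?_, ?_⟩
          · intro D hD
            rcases Finset.mem_insert.1 hD with rfl | hD
            · exact A.2
            · exact h2 D hD
          · intro d hd
            rcases Finset.mem_insert.1 hd with rfl | hd
            · refine ⟨A.1, Finset.mem_insert_self _ _, ?_⟩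
              rw [← hA]
              exact L_mono (min_le_right _ _)
            · obtain ⟨D, hD, h4⟩ := h3 d hd
              exact ⟨D, Finset.mem_insert_of_mem hD, (L_mono (min_le_left _ _)).trans h4⟩
      obtain ⟨E, ε, h1, h2, h3⟩ := hfin
      apply Set.infinite_of_not_bddAbove
      rintro ⟨M, hM⟩
      obtain ⟨n, h4, h5, h6⟩ := exists_large hB hT (E : Set (Set Cantor)) E.finite_toSet
        (fun A hA => h2 A hA) h1 (M + 1)
      have h7 : n ∈ {n : ℕ | ∀ c ∈ F, n ∈ c} := by
        intro c hc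
        obtain ⟨A, hA, h8⟩ := h3 c hc
        exact h8 ⟨h5, fun x => h6 A hA x⟩
      have := hM h7
      omega
    have hps : ∃ a : Set ℕ, a.Infinite ∧ ∀ c ∈ 𝒞, (a \ c).Finite := by
      by_contra hcon
      have h1 : pNum ≤ Cardinal.mk 𝒞 := csInf_le' ⟨𝒞, rfl, hfip, hcon⟩
      exact absurd (h1.trans hcard) (not_le.2 hlt)
    obtain ⟨a, ha, hac⟩ := hps
    refine ⟨a, ha, fun A hA ε hε => ?_⟩
    obtain ⟨K, hK⟩ := exists_nat_gt (1 / ε)
    refine (hac (L A (1 / ((K : ℝ) + 1))) ⟨(⟨A, hA⟩, K), rfl⟩).subset ?_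
    intro n hn
    refine ⟨hn.1, fun h => hn.2 (L_mono ?_ h)⟩
    rw [div_lt_iff₀ hε] at hK
    rw [div_le_iff₀ (by positivity)]
    linarith

omit [Lv] in
theorem exists_extension {B₁ : Set (Set Cantor)} (hB : IsAlg B₁) (hT : PropT B₁)
    (hc : B₁.Countable ∨ Cardinal.mk B₁ < pNum) :
    ∃ B' : Set (Set Cantor), B₁ ⊆ B' ∧ IsAlg B' ∧ PropT B' ∧
      ∀ B : Set (Set Cantor), B' ⊆ B → IsAlg B → PropT B → ¬ GrothendieckProperty B := by
  obtain ⟨a, ha, hac⟩ := exists_pseudo hB hT hc
  have hex : ∀ N : ℕ, ∃ n : ℕ, N ≤ n ∧ n ∈ a := by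
    intro N
    obtain ⟨n, hn1, hn2⟩ := ha.exists_gt N
    exact ⟨n, hn2.le, hn1⟩
  choose n hn1 hn2 using hex
  let lev : ℕ → ℕ := fun k => Nat.rec (n 1) (fun _ r => n (4 * r)) k
  have hlev : ∀ k, lev k ∈ a := by
    intro k
    cases k with
    | zero => exact hn2 1
    | succ k => exact hn2 (4 * lev k)
  let _ : Lv := ⟨lev, hn1 1, fun k => hn1 (4 * lev k)⟩
  have hsuit : Suit B₁ := by
    refine ⟨hB, fun A hA ε hε => ?_⟩
    obtain ⟨M, hM⟩ := (hac A hA ε hε).bddAbove
    refine ⟨M + 1, fun k hk => ?_⟩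
    by_contra hcon
    have h1 : ell k ∈ a \ L A ε := ⟨hlev k, hcon⟩
    have h2 := hM h1
    have h3 := lt_ell k
    omega
  exact ⟨BE B₁, sub_BE hsuit, isAlg_BE hsuit, propT_BE hsuit,
    fun B h hB' hT' => not_grothendieck hB' hT' ((B0_sub hsuit).trans h)⟩

omit [Lv] in
/-- **Every small subalgebra with property (T) extends to a maximal one without the Grothendieck
property.**
(1) Let `B₁` be a subalgebra of `Bor(2^ℕ)` with property (T) which is countable or, more generally, of
cardinality below the pseudointersection number `𝔭`. There is a subalgebra `B' ⊇ B₁` with property (T)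
such that no subalgebra `B ⊇ B'` with property (T) has the Grothendieck property.
(2) So every such `B₁` is contained in a maximal subalgebra with property (T) which does not have
the Grothendieck property.
(3) In particular there is a maximal subalgebra with property (T) which does not have the
Grothendieck property. -/
theorem result :
    (∀ B₁ : Set (Set Cantor), IsAlg B₁ → PropT B₁ → (B₁.Countable ∨ Cardinal.mk B₁ < pNum) →
      ∃ B' : Set (Set Cantor), B₁ ⊆ B' ∧ IsAlg B' ∧ PropT B' ∧
        ∀ B : Set (Set Cantor), B' ⊆ B → IsAlg B → PropT B → ¬ GrothendieckProperty B) ∧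
    (∀ B₁ : Set (Set Cantor), IsAlg B₁ → PropT B₁ → (B₁.Countable ∨ Cardinal.mk B₁ < pNum) →
      ∃ B : Set (Set Cantor), IsMaxT B ∧ B₁ ⊆ B ∧ ¬ GrothendieckProperty B) ∧
    (∃ B : Set (Set Cantor), IsMaxT B ∧ ¬ GrothendieckProperty B) := by
  refine ⟨fun B₁ h1 h2 h3 => exists_extension h1 h2 h3, fun B₁ h1 h2 h3 => ?_, ?_⟩
  · obtain ⟨B', h4, h5, h6, h7⟩ := exists_extension h1 h2 h3
    obtain ⟨B, hB, h⟩ := exists_isMaxT h5 h6
    exact ⟨B, hB, h4.trans h, h7 B h hB.1.1 hB.1.2⟩
  · let _ : Lv := basicLv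
    obtain ⟨B, hB, h⟩ := exists_isMaxT isAlg_B0 propT_B0
    exact ⟨B, hB, not_grothendieck hB.1.1 hB.1.2 h⟩

end Pool.Agent.Results.MP_54cd88_an.SmallExtensions
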